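import Mathlib

open Filter Topology Set

noncomputable section

namespace Helper67.SG

universe u

section defs

variable {X : Type u} [NormedAddCommGroup X] [NormedSpace ℝ X]

/-- `φ` is the Gateaux derivative of the norm at `x`. -/
def IsGateauxDerivAt (x : X) (φ : X →L[ℝ] ℝ) : Prop :=
  ∀ h : X, Tendsto (fun t : ℝ => (‖x + t • h‖ - ‖x‖) / t) (𝓝[≠] 0) (𝓝 (φ h))

/-- the sequence `f` of functionals converges to `φ` in the weak topology of `X*`. -/
def WeaklyConverges (f : ℕ → (X →L[ℝ] ℝ)) (φ : X →L[ℝ] ℝ) : Prop :=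
  ∀ F : (X →L[ℝ] ℝ) →L[ℝ] ℝ, Tendsto (fun n => F (f n)) atTop (𝓝 (F φ))

/-- the norm is strongly Gateaux differentiable at `x` (a point of the unit sphere). -/
def StronglyGateauxAt (x : X) : Prop :=
  ∃ φ : X →L[ℝ] ℝ, IsGateauxDerivAt x φ ∧
    ∀ f : ℕ → (X →L[ℝ] ℝ), (∀ n, ‖f n‖ = 1) → Tendsto (fun n => f n x) atTop (𝓝 1) →
      WeaklyConverges f φ

/-- `f` is not a point of weak*-to-weak continuity of the set `K ⊆ X*`: some `F ∈ X**` is not
weak*-continuous on `K` at `f`. -/
def NotPC (K : Set (WeakDual ℝ X)) (f : WeakDual ℝ X) : Prop :=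
  ∃ F : (X →L[ℝ] ℝ) →L[ℝ] ℝ,
    ¬ ContinuousWithinAt (fun g : WeakDual ℝ X => F (WeakDual.toStrongDual g)) K f

/-- `f` is a weak*-support point of `K`: some nonzero `x ∈ X` attains its maximum over `K`
at `f`. -/
def IsSupportPoint (K : Set (WeakDual ℝ X)) (f : WeakDual ℝ X) : Prop :=
  ∃ x : X, x ≠ 0 ∧ ∀ g ∈ K, g x ≤ f x

/-- `C` is an unconditionality constant of the subspaces `V n`. -/
def UncondConst (V : ℕ → Submodule ℝ X) (C : ℝ) : Prop :=
  ∀ (s : Finset ℕ) (x : ℕ → X) (ε : ℕ → ℝ), (∀ n, x n ∈ V n) → (∀ n, |ε n| ≤ 1) →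
    ‖∑ n ∈ s, ε n • x n‖ ≤ C * ‖∑ n ∈ s, x n‖

variable (X)

/-- the norm of `X` is Gateaux differentiable on the unit sphere. -/
def GateauxNorm : Prop := ∀ x : X, ‖x‖ = 1 → ∃ φ : X →L[ℝ] ℝ, IsGateauxDerivAt x φ

/-- the norm of `X` is nowhere strongly Gateaux differentiable on the unit sphere. -/
def NowhereStronglyGateaux : Prop := ∀ x : X, ‖x‖ = 1 → ¬ StronglyGateauxAt x

/-- `X` admits an equivalent norm (that is, `X` is linearly homeomorphic to a normed space `Y`)
which is Gateaux differentiable and nowhere strongly Gateaux differentiable on the sphere. -/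
def ClassC : Prop :=
  ∃ (Y : Type u) (_ : NormedAddCommGroup Y) (_ : NormedSpace ℝ Y), Nonempty (X ≃L[ℝ] Y) ∧
    GateauxNorm Y ∧ NowhereStronglyGateaux Y

/-- some nonempty weak*-compact convex subset of `X*` has no point of weak*-to-weak
continuity. -/
def HasNoPCSet : Prop :=
  ∃ K : Set (WeakDual ℝ X), K.Nonempty ∧ Convex ℝ K ∧ IsCompact K ∧ ∀ f ∈ K, NotPC K f

/-- some nonempty weak*-compact convex subset of `X*` has no weak*-support point which is a point
of weak*-to-weak continuity. -/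
def HasNoSupportPCSet : Prop :=
  ∃ K : Set (WeakDual ℝ X), K.Nonempty ∧ Convex ℝ K ∧ IsCompact K ∧
    ∀ f ∈ K, IsSupportPoint K f → NotPC K f

/-- the dual unit ball. -/
def dualBall : Set (WeakDual ℝ X) := {g | ‖WeakDual.toStrongDual g‖ ≤ 1}

/-- no norm-attaining functional of norm one is a point of weak*-to-weak continuity of the dual
unit ball. -/
def NoAttainingPC : Prop :=
  ∀ f : WeakDual ℝ X, ‖WeakDual.toStrongDual f‖ = 1 → (∃ x : X, ‖x‖ = 1 ∧ f x = 1) →
    NotPC (dualBall X) f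

/-- `X` has an equivalent norm (no differentiability is asked) such that no norm-attaining
functional of norm one is a point of weak*-to-weak continuity of the dual unit ball. -/
def HasBadNorm : Prop :=
  ∃ (Y : Type u) (_ : NormedAddCommGroup Y) (_ : NormedSpace ℝ Y), Nonempty (X ≃L[ℝ] Y) ∧
    NoAttainingPC Y

/-- `X` contains a sequence equivalent to the unit vector basis of `ℓ¹`
(that is, `X` has a closed subspace isomorphic to `ℓ¹`). -/
def ContainsL1 : Prop :=
  ∃ y : ℕ → X, (∃ M : ℝ, ∀ n, ‖y n‖ ≤ M) ∧ ∃ c : ℝ, 0 < c ∧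
    ∀ (s : Finset ℕ) (a : ℕ → ℝ), c * ∑ i ∈ s, |a i| ≤ ‖∑ i ∈ s, a i • y i‖

/-- `X` has an unconditional finite-dimensional decomposition: finite-dimensional subspaces `V n`
whose sum is dense such that changing signs (or multiplying by scalars of modulus at most one)
in finite sums of vectors from the `V n` increases the norm at most by a constant factor.
For one-dimensional `V n` this is an unconditional basis. -/
def HasUncondFDD : Prop :=
  ∃ V : ℕ → Submodule ℝ X, (∀ n, FiniteDimensional ℝ (V n)) ∧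
    Dense ((⨆ n, V n : Submodule ℝ X) : Set X) ∧ ∃ C : ℝ, UncondConst V C

end defs

end Helper67.SG
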