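import Pool.Agent.Helper67.SG.Lim

open Filter Topology Set

noncomputable section

namespace Helper67.SG

universe u

/-! ### the Bessel inequality on a power set -/

/-- average over the power set -/
def avg (T : Finset ℕ) (u : Finset ℕ → ℝ) : ℝ := (∑ S ∈ T.powerset, u S) / 2 ^ T.card

lemma avg_insert {m : ℕ} {T : Finset ℕ} (hm : m ∉ T) (u : Finset ℕ → ℝ) :
    avg (insert m T) u = (1 / 2) * (avg T u + avg T (fun S => u (insert m S))) := by
  unfold avg
  rw [Finset.sum_powerset_insert hm, Finset.card_insert_of_notMem hm, pow_succ]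
  field_simp

lemma avg_mono {T : Finset ℕ} {u v : Finset ℕ → ℝ} (h : ∀ S, u S ≤ v S) : avg T u ≤ avg T v := by
  unfold avg
  gcongr with S _
  exact h S

lemma avg_const (T : Finset ℕ) (a : ℝ) : avg T (fun _ => a) = a := by
  unfold avg
  rw [Finset.sum_const, Finset.card_powerset, nsmul_eq_mul]
  push_cast
  field_simp

lemma bessel (T : Finset ℕ) : ∀ u : Finset ℕ → ℝ,
    (avg T u) ^ 2 + ∑ n ∈ T, (avg T (fun S => u (insert n S)) - avg T u) ^ 2
      ≤ avg T (fun S => (u S) ^ 2) := by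
  induction T using Finset.induction_on with
  | empty => intro u; simp [avg]
  | insert m T hm ih =>
    intro u
    have h0 := ih u
    have h1 := ih (fun S => u (insert m S))
    rw [Finset.sum_insert hm]
    rw [avg_insert hm, avg_insert hm, avg_insert hm]
    have e1 : ∀ n ∈ T, (avg (insert m T) (fun S => u (insert n S)) - (1 / 2) *
        (avg T u + avg T (fun S => u (insert m S)))) ^ 2 ≤
        (1 / 2) * (avg T (fun S => u (insert n S)) - avg T u) ^ 2 +
        (1 / 2) * (avg T (fun S => u (insert m (insert n S)))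
          - avg T (fun S => u (insert m S))) ^ 2 := by
      intro n _
      rw [avg_insert hm]
      have e2 : (fun S => u (insert n (insert m S))) = (fun S => u (insert m (insert n S))) := by
        funext S
        rw [Finset.insert_comm]
      simp only [e2]
      nlinarith [sq_nonneg ((avg T (fun S => u (insert n S)) - avg T u) -
        (avg T (fun S => u (insert m (insert n S))) - avg T (fun S => u (insert m S))))]
    have e3 := Finset.sum_le_sum e1
    rw [Finset.sum_add_distrib, ← Finset.mul_sum, ← Finset.mul_sum] at e3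
    have e4 : (fun S => u (insert m (insert m S))) = (fun S => u (insert m S)) := by
      funext S
      rw [Finset.insert_idem]
    simp only [e4]
    nlinarith [h0, h1, e3]

variable {X : Type u} [NormedAddCommGroup X] [NormedSpace ℝ X]

/-- functionals with prescribed values on the sequence -/
lemma exists_functional {y : ℕ → X} {c : ℝ} (hc : 0 < c)
    (hy : ∀ (s : Finset ℕ) (a : ℕ → ℝ), c * ∑ i ∈ s, |a i| ≤ ‖∑ i ∈ s, a i • y i‖)
    (ε : ℕ → ℝ) (hε : ∀ i, |ε i| ≤ 1) :
    ∃ φ : X →L[ℝ] ℝ, ‖φ‖ ≤ 1 / c ∧ ∀ n, φ (y n) = ε n := by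
  classical
  let L : (ℕ →₀ ℝ) →ₗ[ℝ] X := Finsupp.linearCombination ℝ y
  have hLb : ∀ v : ℕ →₀ ℝ, c * ∑ i ∈ v.support, |v i| ≤ ‖L v‖ := by
    intro v
    have := hy v.support (fun i => v i)
    simp only [L, Finsupp.linearCombination_apply, Finsupp.sum]
    exact this
  have hL : Function.Injective L := by
    rw [← LinearMap.ker_eq_bot, LinearMap.ker_eq_bot']
    intro v hv
    have h1 := hLb v
    rw [hv, norm_zero] at h1
    have h2 : ∑ i ∈ v.support, |v i| ≤ 0 := by
      by_contra hcon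
      push Not at hcon
      have := mul_pos hc hcon
      linarith
    have h3 : ∀ i ∈ v.support, |v i| = 0 := by
      have h4 : ∑ i ∈ v.support, |v i| = 0 :=
        le_antisymm h2 (Finset.sum_nonneg fun i _ => abs_nonneg _)
      exact (Finset.sum_eq_zero_iff_of_nonneg (fun i _ => abs_nonneg _)).1 h4
    ext i
    by_cases hi : i ∈ v.support
    · simpa using h3 i hi
    · simpa using hi
  let e : (ℕ →₀ ℝ) ≃ₗ[ℝ] LinearMap.range L := LinearEquiv.ofInjective L hL
  let ψ : LinearMap.range L →ₗ[ℝ] ℝ := (Finsupp.linearCombination ℝ ε).comp e.symm.toLinearMap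
  have hψ : ∀ z : LinearMap.range L, ‖ψ z‖ ≤ (1 / c) * ‖z‖ := by
    intro z
    obtain ⟨v, rfl⟩ := e.surjective z
    have h1 : ψ (e v) = ∑ i ∈ v.support, v i * ε i := by
      simp only [ψ, LinearMap.comp_apply]
      simp [Finsupp.linearCombination_apply, Finsupp.sum]
    have h2 : ‖(e v : LinearMap.range L)‖ = ‖L v‖ := rfl
    rw [h1, h2]
    have h3 := hLb v
    have h4 : ‖∑ i ∈ v.support, v i * ε i‖ ≤ ∑ i ∈ v.support, |v i| := by
      refine (norm_sum_le _ _).trans (Finset.sum_le_sum fun i _ => ?_)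
      rw [norm_mul, Real.norm_eq_abs, Real.norm_eq_abs]
      exact mul_le_of_le_one_right (abs_nonneg _) (hε i)
    refine h4.trans ?_
    rw [div_mul_eq_mul_div, le_div_iff₀ hc]
    linarith
  let ψ' : StrongDual ℝ (LinearMap.range L) := ψ.mkContinuous (1 / c) hψ
  obtain ⟨φ, hφ1, hφ2⟩ := exists_extension_norm_eq (LinearMap.range L) ψ'
  refine ⟨φ, ?_, ?_⟩
  · rw [hφ2]
    exact LinearMap.mkContinuous_norm_le _ (by positivity) _
  · intro n
    have h1 : L (Finsupp.single n 1) = y n := by simp [L]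
    have h2 := hφ1 (e (Finsupp.single n 1))
    have h3 : ((e (Finsupp.single n 1) : LinearMap.range L) : X) = y n := h1
    rw [h3] at h2
    rw [h2]
    change ψ (e (Finsupp.single n 1)) = ε n
    simp only [ψ, LinearMap.comp_apply]
    simp

/-- the averaged functionals -/
def fN (φ : Finset ℕ → (X →L[ℝ] ℝ)) (N : ℕ) (A : Finset ℕ) : X →L[ℝ] ℝ :=
  ((1 : ℝ) / 2 ^ N) • ∑ S ∈ (Finset.range N).powerset, φ (S ∪ A)

lemma fN_apply (φ : Finset ℕ → (X →L[ℝ] ℝ)) (N : ℕ) (A : Finset ℕ) (x : X) :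
    fN φ N A x = avg (Finset.range N) (fun S => φ (S ∪ A) x) := by
  unfold fN avg
  rw [Finset.card_range]
  change (1 / 2 ^ N) * ((∑ S ∈ (Finset.range N).powerset, φ (S ∪ A)) x) = _
  rw [ContinuousLinearMap.sum_apply]
  ring

lemma fN_norm (φ : Finset ℕ → (X →L[ℝ] ℝ)) {C : ℝ} (hC : ∀ S, ‖φ S‖ ≤ C) (N : ℕ)
    (A : Finset ℕ) : ‖fN φ N A‖ ≤ C := by
  have hC0 : 0 ≤ C := (norm_nonneg _).trans (hC ∅)
  refine ContinuousLinearMap.opNorm_le_bound _ hC0 ?_
  intro x
  have hb : ∀ S, |φ S x| ≤ C * ‖x‖ := fun S =>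
    ((φ S).le_opNorm x).trans (mul_le_mul_of_nonneg_right (hC S) (norm_nonneg _))
  rw [fN_apply, Real.norm_eq_abs, abs_le]
  constructor
  · rw [← avg_const (Finset.range N) (-(C * ‖x‖))]
    exact avg_mono fun S => (abs_le.1 (hb _)).1
  · rw [← avg_const (Finset.range N) (C * ‖x‖)]
    exact avg_mono fun S => (abs_le.1 (hb _)).2

lemma fN_mem (φ : Finset ℕ → (X →L[ℝ] ℝ)) (y : ℕ → X)
    (hφ : ∀ S n, φ S (y n) = if n ∈ S then 1 else -1) (N : ℕ) (A : Finset ℕ) {n : ℕ}
    (hn : n ∈ A) : fN φ N A (y n) = 1 := by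
  rw [fN_apply]
  have : (fun S => φ (S ∪ A) (y n)) = fun _ => (1 : ℝ) := by
    funext S
    rw [hφ, if_pos (Finset.mem_union_right _ hn)]
  rw [this, avg_const]

lemma fN_notMem (φ : Finset ℕ → (X →L[ℝ] ℝ)) (y : ℕ → X)
    (hφ : ∀ S n, φ S (y n) = if n ∈ S then 1 else -1) {N : ℕ} (A : Finset ℕ) {n : ℕ}
    (hn : n ∉ A) (hN : n < N) : fN φ N A (y n) = 0 := by
  rw [fN_apply]
  have hr : Finset.range N = insert n ((Finset.range N).erase n) := by
    rw [Finset.insert_erase (Finset.mem_range.2 hN)]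
  rw [hr, avg_insert (Finset.notMem_erase n _)]
  have h1 : avg ((Finset.range N).erase n) (fun S => φ (S ∪ A) (y n)) = -1 := by
    have : avg ((Finset.range N).erase n) (fun S => φ (S ∪ A) (y n))
        = avg ((Finset.range N).erase n) (fun _ => (-1 : ℝ)) := by
      unfold avg
      congr 1
      refine Finset.sum_congr rfl fun S hS => ?_
      change φ (S ∪ A) (y n) = -1
      rw [hφ, if_neg]
      intro hmem
      rcases Finset.mem_union.1 hmem with h | h
      · exact (Finset.notMem_erase n _) (Finset.mem_powerset.1 hS h)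
      · exact hn h
    rw [this, avg_const]
  have h2 : avg ((Finset.range N).erase n) (fun S => φ (insert n S ∪ A) (y n)) = 1 := by
    have : (fun S => φ (insert n S ∪ A) (y n)) = fun _ => (1 : ℝ) := by
      funext S
      rw [hφ, if_pos]
      exact Finset.mem_union_left _ (Finset.mem_insert_self n S)
    rw [this, avg_const]
  rw [h1, h2]
  norm_num

lemma fN_bessel (φ : Finset ℕ → (X →L[ℝ] ℝ)) {C : ℝ} (hC : ∀ S, ‖φ S‖ ≤ C) (N : ℕ)
    (A T : Finset ℕ) (hT : T ⊆ Finset.range N) (x : X) :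
    ∑ n ∈ T, (fN φ N (insert n A) x - fN φ N A x) ^ 2 ≤ (C * ‖x‖) ^ 2 := by
  have h1 := bessel (Finset.range N) (fun S => φ (S ∪ A) x)
  have h2 : avg (Finset.range N) (fun S => (φ (S ∪ A) x) ^ 2) ≤ (C * ‖x‖) ^ 2 := by
    rw [← avg_const (Finset.range N) ((C * ‖x‖) ^ 2)]
    refine avg_mono fun S => ?_
    have hb : |φ (S ∪ A) x| ≤ C * ‖x‖ :=
      ((φ _).le_opNorm x).trans (mul_le_mul_of_nonneg_right (hC _) (norm_nonneg _))
    rw [← sq_abs]
    gcongr
  have h3 : ∑ n ∈ T, (fN φ N (insert n A) x - fN φ N A x) ^ 2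
      ≤ ∑ n ∈ Finset.range N, (avg (Finset.range N) (fun S => φ (insert n S ∪ A) x)
        - avg (Finset.range N) (fun S => φ (S ∪ A) x)) ^ 2 := by
    refine (Finset.sum_le_sum_of_subset_of_nonneg hT fun _ _ _ => sq_nonneg _).trans ?_
    refine Finset.sum_le_sum fun n _ => ?_
    rw [fN_apply, fN_apply]
    have : (fun S => φ (S ∪ insert n A) x) = fun S => φ (insert n S ∪ A) x := by
      funext S
      rw [Finset.union_insert, Finset.insert_union]
    rw [this]
  have h4 := sq_nonneg (avg (Finset.range N) (fun S => φ (S ∪ A) x))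
  linarith

/-- the functionals `f_A` -/
lemma exists_fA {y : ℕ → X} {c : ℝ} (hc : 0 < c)
    (hy : ∀ (s : Finset ℕ) (a : ℕ → ℝ), c * ∑ i ∈ s, |a i| ≤ ‖∑ i ∈ s, a i • y i‖) :
    ∃ f : Finset ℕ → (X →L[ℝ] ℝ), (∀ A, ‖f A‖ ≤ 1 / c) ∧
      (∀ A, ∀ n ∈ A, f A (y n) = 1) ∧ (∀ A, ∀ n, n ∉ A → f A (y n) = 0) ∧
      ∀ A x, Tendsto (fun n => f (insert n A) x) atTop (𝓝 (f A x)) := by
  classical
  have hex : ∀ S : Finset ℕ, ∃ φ : X →L[ℝ] ℝ, ‖φ‖ ≤ 1 / c ∧
      ∀ n, φ (y n) = if n ∈ S then 1 else -1 := by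
    intro S
    refine exists_functional hc hy (fun n => if n ∈ S then 1 else -1) ?_
    intro n
    split_ifs <;> simp
  choose φ hφ1 hφ2 using hex
  have hlim : ∀ A : Finset ℕ, ∃ g : X →L[ℝ] ℝ, ‖g‖ ≤ 1 / c ∧
      ∀ z, Tendsto (fun N => fN φ N A z) (hyperfilter ℕ : Filter ℕ) (𝓝 (g z)) :=
    fun A => exists_lim (hyperfilter ℕ) (fun N => fN φ N A) (1 / c) (fun N => fN_norm φ hφ1 N A)
  choose f hf1 hf2 using hlim
  refine ⟨f, hf1, ?_, ?_, ?_⟩
  · intro A n hn
    refine tendsto_nhds_unique (hf2 A (y n)) ?_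
    simp_rw [fN_mem φ y hφ2 _ A hn]
    exact tendsto_const_nhds
  · intro A n hn
    refine tendsto_nhds_unique (hf2 A (y n)) ?_
    refine tendsto_const_nhds.congr' ?_
    have h1 : ∀ᶠ N in (atTop : Filter ℕ), (0 : ℝ) = fN φ N A (y n) := by
      filter_upwards [eventually_gt_atTop n] with N hN
      rw [fN_notMem φ y hφ2 A hn hN]
    exact h1.filter_mono Nat.hyperfilter_le_atTop
  · intro A x
    have hbound : ∀ T : Finset ℕ, ∑ n ∈ T, (f (insert n A) x - f A x) ^ 2
        ≤ (1 / c * ‖x‖) ^ 2 := by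
      intro T
      have h1 : Tendsto (fun N => ∑ n ∈ T, (fN φ N (insert n A) x - fN φ N A x) ^ 2)
          (hyperfilter ℕ : Filter ℕ) (𝓝 (∑ n ∈ T, (f (insert n A) x - f A x) ^ 2)) := by
        refine tendsto_finset_sum _ fun n _ => ?_
        exact ((hf2 (insert n A) x).sub (hf2 A x)).pow 2
      refine le_of_tendsto h1 ?_
      have h2 : ∀ᶠ N in (atTop : Filter ℕ), T ⊆ Finset.range N := by
        obtain ⟨b, hb⟩ := T.bddAbove
        filter_upwards [eventually_gt_atTop b] with N hN n hn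
        exact Finset.mem_range.2 ((hb hn).trans_lt hN)
      filter_upwards [h2.filter_mono Nat.hyperfilter_le_atTop] with N hN
      exact fN_bessel φ hφ1 N A T hN x
    have hsum : Summable fun n => (f (insert n A) x - f A x) ^ 2 :=
      summable_of_sum_le (fun n => sq_nonneg _) hbound
    have h3 := hsum.tendsto_atTop_zero
    have h4 : Tendsto (fun n => |f (insert n A) x - f A x|) atTop (𝓝 0) := by
      have h5 := (Real.continuous_sqrt.tendsto 0).comp h3
      rw [Real.sqrt_zero] at h5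
      refine h5.congr fun n => ?_
      simp only [Function.comp_apply]
      exact Real.sqrt_sq_eq_abs _
    rw [tendsto_iff_norm_sub_tendsto_zero]
    exact h4

end Helper67.SG
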