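import Pool.Agent.Helper67.SG.L1

open Filter Topology Set

noncomputable section

namespace Helper67.SG

universe u

variable {X : Type u} [NormedAddCommGroup X] [NormedSpace ℝ X]

/-- the extension property used in the construction -/
def Ext (R : Set (WeakDual ℝ X)) (y : ℕ → X) (g : WeakDual ℝ X) : Prop :=
  ∃ G : Finset ℕ → WeakDual ℝ X, G ∅ = g ∧ (∀ B, G B ∈ convexHull ℝ R) ∧
    (∀ B, ∀ n ∈ B, G B (y n) = 1) ∧
    (∀ B x, Tendsto (fun n => G (insert n B) x) atTop (𝓝 (G B x))) ∧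
    ∃ n0, ∀ n, n0 ≤ n → g (y n) = 0

lemma convex_Ext (R : Set (WeakDual ℝ X)) (y : ℕ → X) : Convex ℝ {g | Ext R y g} := by
  rintro g ⟨G, hG0, hG1, hG2, hG3, n0, hn0⟩ h ⟨H, hH0, hH1, hH2, hH3, m0, hm0⟩ s t hs ht hst
  refine ⟨fun B => s • G B + t • H B, ?_, ?_, ?_, ?_, max n0 m0, ?_⟩
  · simp only [hG0, hH0]
  · intro B
    exact convex_convexHull ℝ R (hG1 B) (hH1 B) hs ht hst
  · intro B n hn
    change s * G B (y n) + t * H B (y n) = 1
    rw [hG2 B n hn, hH2 B n hn]
    linarith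
  · intro B x
    exact ((hG3 B x).const_mul s).add ((hH3 B x).const_mul t)
  · intro n hn
    change s * g (y n) + t * h (y n) = 0
    rw [hn0 n ((le_max_left _ _).trans hn), hm0 n ((le_max_right _ _).trans hn)]
    ring

lemma ext_of_mem {f : Finset ℕ → (X →L[ℝ] ℝ)} {y : ℕ → X}
    (h1 : ∀ A, ∀ n ∈ A, f A (y n) = 1) (h2 : ∀ A, ∀ n, n ∉ A → f A (y n) = 0)
    (h3 : ∀ A x, Tendsto (fun n => f (insert n A) x) atTop (𝓝 (f A x)))
    {g : WeakDual ℝ X}
    (hg : g ∈ convexHull ℝ (Set.range fun A => StrongDual.toWeakDual (f A))) :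
    Ext (Set.range fun A => StrongDual.toWeakDual (f A)) y g := by
  refine convexHull_min ?_ (convex_Ext _ y) hg
  rintro _ ⟨A, rfl⟩
  refine ⟨fun B => StrongDual.toWeakDual (f (B ∪ A)), ?_, ?_, ?_, ?_, ?_⟩
  · simp
  · intro B
    exact subset_convexHull ℝ _ ⟨B ∪ A, rfl⟩
  · intro B n hn
    exact h1 (B ∪ A) n (Finset.mem_union_left _ hn)
  · intro B x
    have : ∀ n, f (insert n B ∪ A) x = f (insert n (B ∪ A)) x := by
      intro n
      rw [Finset.insert_union]
    change Tendsto (fun n => f (insert n B ∪ A) x) atTop (𝓝 (f (B ∪ A) x))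
    simp_rw [this]
    exact h3 (B ∪ A) x
  · obtain ⟨b, hb⟩ := A.bddAbove
    refine ⟨b + 1, fun n hn => ?_⟩
    refine h2 A n fun hmem => ?_
    have h5 : n ≤ b := hb hmem
    omega

/-- building a point of the compact set which is `1` on an infinite set of indices -/
lemma exists_chain {R : Set (WeakDual ℝ X)} {y : ℕ → X} {K : Set (WeakDual ℝ X)}
    (hK : IsCompact K) (hRK : convexHull ℝ R ⊆ K) {g' : WeakDual ℝ X} (hg' : Ext R y g')
    (d : ℕ → X) (p : ℕ) {η : ℝ} (hη : 0 < η) {N : Set ℕ} (hN : N.Infinite) :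
    ∃ N' : Set ℕ, N'.Infinite ∧ N' ⊆ N ∧ ∃ g ∈ K, (∀ i < p, |g (d i) - g' (d i)| ≤ η) ∧
      ∀ n ∈ N', g (y n) = 1 := by
  classical
  obtain ⟨G, hG0, hG1, hG2, hG3, n0, hn0⟩ := hg'
  let P : Finset ℕ → Prop := fun B => ∀ i ∈ Finset.range p, |G B (d i) - g' (d i)| < η
  have hnext : ∀ B : {B : Finset ℕ // P B}, ∃ b : ℕ, b ∈ N ∧ (∀ a ∈ B.1, a < b) ∧
      P (insert b B.1) := by
    intro B
    have h1 : ∀ᶠ b in (atTop : Filter ℕ), P (insert b B.1) := by
      rw [Filter.eventually_all_finset]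
      intro i hi
      have h2 : Tendsto (fun b => |G (insert b B.1) (d i) - g' (d i)|) atTop
          (𝓝 |G B.1 (d i) - g' (d i)|) := ((hG3 B.1 (d i)).sub_const _).abs
      exact h2.eventually (Iio_mem_nhds (B.2 i hi))
    have h2 : ∀ᶠ b in (atTop : Filter ℕ), ∀ a ∈ B.1, a < b := by
      rw [Filter.eventually_all_finset]
      intro a _
      exact eventually_gt_atTop a
    have h3 : ∃ᶠ b in (atTop : Filter ℕ), b ∈ N := Nat.frequently_atTop_iff_infinite.2 hN
    obtain ⟨b, hb1, hb2, hb3⟩ := (h3.and_eventually (h1.and h2)).exists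
    exact ⟨b, hb1, hb3, hb2⟩
  choose b hbN hbgt hbP using hnext
  let step : {B : Finset ℕ // P B} → {B : Finset ℕ // P B} := fun B => ⟨insert (b B) B.1, hbP B⟩
  have hP0 : P ∅ := by
    intro i _
    rw [hG0]
    simpa using hη
  let sq : ℕ → {B : Finset ℕ // P B} := fun k => step^[k] ⟨∅, hP0⟩
  have hsucc : ∀ k, (sq (k + 1)).1 = insert (b (sq k)) (sq k).1 := by
    intro k
    simp only [sq, Function.iterate_succ_apply']
    rfl
  have hmono : Monotone fun k => (sq k).1 := by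
    refine monotone_nat_of_le_succ fun k => ?_
    rw [hsucc]
    exact Finset.subset_insert _ _
  let N' : Set ℕ := {n | ∃ k, n ∈ (sq k).1}
  have hbmem : ∀ k, b (sq k) ∈ (sq (k + 1)).1 := by
    intro k
    rw [hsucc]
    exact Finset.mem_insert_self _ _
  have hstrict : StrictMono fun k => b (sq k) := by
    refine strictMono_nat_of_lt_succ fun k => ?_
    exact hbgt (sq (k + 1)) _ (hbmem k)
  have hsub : ∀ k, ∀ n ∈ (sq k).1, n ∈ N := by
    intro k
    induction k with
    | zero =>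
      intro n hn
      simp [sq] at hn
    | succ k ih =>
      intro n hn
      rw [hsucc, Finset.mem_insert] at hn
      rcases hn with rfl | hn
      · exact hbN _
      · exact ih n hn
  have hle : ((((hyperfilter ℕ).map fun k => G (sq k).1) : Ultrafilter (WeakDual ℝ X)) :
      Filter (WeakDual ℝ X)) ≤ 𝓟 K := by
    rw [Ultrafilter.coe_map, le_principal_iff]
    exact Filter.mem_map.2 (Filter.univ_mem' fun k => hRK (hG1 _))
  obtain ⟨g, hgK, hgle⟩ := hK.ultrafilter_le_nhds _ hle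
  have hlim : ∀ x, Tendsto (fun k => G (sq k).1 x) (hyperfilter ℕ : Filter ℕ) (𝓝 (g x)) := by
    intro x
    have h3 : Tendsto (fun k => G (sq k).1) (hyperfilter ℕ : Filter ℕ) (𝓝 g) := by
      rw [Ultrafilter.coe_map] at hgle
      exact hgle
    exact ((WeakDual.eval_continuous (𝕜 := ℝ) (E := X) x).tendsto g).comp h3
  refine ⟨N', ?_, ?_, g, hgK, ?_, ?_⟩
  · exact Set.infinite_of_injective_forall_mem hstrict.injective (fun k => ⟨k + 1, hbmem k⟩)
  · rintro n ⟨k, hk⟩
    exact hsub k n hk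
  · intro i hi
    have h1 : Tendsto (fun k => |G (sq k).1 (d i) - g' (d i)|) (hyperfilter ℕ : Filter ℕ)
        (𝓝 |g (d i) - g' (d i)|) := ((hlim (d i)).sub_const _).abs
    exact le_of_tendsto h1 (Eventually.of_forall fun k => ((sq k).2 i (Finset.mem_range.2 hi)).le)
  · rintro n ⟨k, hk⟩
    refine tendsto_nhds_unique (hlim (y n)) ?_
    refine tendsto_const_nhds.congr' ?_
    have h1 : ∀ᶠ j in (atTop : Filter ℕ), (1 : ℝ) = G (sq j).1 (y n) := by
      filter_upwards [eventually_ge_atTop k] with j hj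
      rw [hG2 _ n (hmono hj hk)]
    exact h1.filter_mono Nat.hyperfilter_le_atTop

/-- bounded sequences converging on a dense sequence converge weak* -/
lemma tendsto_weakDual {K : Set (WeakDual ℝ X)} (hK : IsCompact K) {d : ℕ → X}
    (hd : DenseRange d) {f : WeakDual ℝ X} {g : ℕ → WeakDual ℝ X} (hg : ∀ n, g n ∈ K)
    (h : ∀ i, Tendsto (fun n => g n (d i)) atTop (𝓝 (f (d i)))) :
    Tendsto g atTop (𝓝 f) := by
  refine hK.tendsto_nhds_of_unique_mapClusterPt (Eventually.of_forall hg) ?_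
  intro g' _ hcl
  have h1 : ∀ i, g' (d i) = f (d i) := by
    intro i
    have h2 : ClusterPt (g' (d i)) (map (fun n => g n (d i)) atTop) :=
      hcl.tendsto_comp ((WeakDual.eval_continuous (𝕜 := ℝ) (E := X) (d i)).tendsto g')
    exact eq_of_nhds_neBot (h2.mono (h i))
  have h2 : (g' : X → ℝ) = f := by
    refine hd.equalizer (WeakDual.toStrongDual g').continuous
      (WeakDual.toStrongDual f).continuous ?_
    funext i
    exact h1 i
  exact DFunLike.coe_injective h2

theorem hasNoPC_of_containsL1 [TopologicalSpace.SeparableSpace X] (h : ContainsL1 X) :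
    HasNoPCSet X := by
  classical
  obtain ⟨y, ⟨M, hM⟩, c, hc, hy⟩ := h
  obtain ⟨f, hf1, hf2, hf3, hf4⟩ := exists_fA hc hy
  let d : ℕ → X := TopologicalSpace.denseSeq X
  have hd : DenseRange d := TopologicalSpace.denseRange_denseSeq X
  let R : Set (WeakDual ℝ X) := Set.range fun A => StrongDual.toWeakDual (f A)
  let K : Set (WeakDual ℝ X) := closure (convexHull ℝ R)
  let S : Set (WeakDual ℝ X) :=
    WeakDual.toStrongDual ⁻¹' Metric.closedBall (0 : StrongDual ℝ X) (1 / c)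
  have hS : IsCompact S := WeakDual.isCompact_closedBall (𝕜 := ℝ) (E := X) 0 (1 / c)
  have hSconv : Convex ℝ S := by
    intro g hg k hk s t hs ht hst
    simp only [S, mem_preimage, Metric.mem_closedBall, dist_zero_right] at hg hk ⊢
    rw [map_add, map_smul, map_smul]
    refine (norm_add_le _ _).trans ?_
    rw [norm_smul, norm_smul, Real.norm_of_nonneg hs, Real.norm_of_nonneg ht]
    have h1 := mul_le_mul_of_nonneg_left hg hs
    have h2 := mul_le_mul_of_nonneg_left hk ht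
    have h3 : s * (1 / c) + t * (1 / c) = 1 / c := by rw [← add_mul, hst, one_mul]
    linarith
  have hRS : convexHull ℝ R ⊆ S := by
    refine convexHull_min ?_ hSconv
    rintro _ ⟨A, rfl⟩
    simp only [S, mem_preimage, Metric.mem_closedBall, dist_zero_right]
    exact hf1 A
  have hKS : K ⊆ S := closure_minimal hRS hS.isClosed
  have hK : IsCompact K := hS.of_isClosed_subset isClosed_closure hKS
  refine ⟨K, ?_, (convex_convexHull ℝ R).closure, hK, ?_⟩
  · exact ⟨StrongDual.toWeakDual (f ∅), subset_closure (subset_convexHull ℝ _ ⟨∅, rfl⟩)⟩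
  intro f0 hf0
  have hmain : ∀ (p : ℕ) (N : {N : Set ℕ // N.Infinite}), ∃ N' : {N : Set ℕ // N.Infinite},
      N'.1 ⊆ N.1 ∧ ∃ g g' : WeakDual ℝ X, g ∈ K ∧ g' ∈ K ∧
        (∀ i < p, |g (d i) - f0 (d i)| ≤ 1 / (p + 1 : ℝ)) ∧
        (∀ i < p, |g' (d i) - f0 (d i)| ≤ 1 / (p + 1 : ℝ)) ∧
        (∀ n ∈ N'.1, g (y n) = 1) ∧ ∃ n0, ∀ n, n0 ≤ n → g' (y n) = 0 := by
    intro p N
    have hη : (0 : ℝ) < 1 / (2 * (p + 1)) := by positivity
    let V : Set (WeakDual ℝ X) := ⋂ i ∈ Finset.range p,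
      {g | |g (d i) - f0 (d i)| < 1 / (2 * (p + 1))}
    have hV : IsOpen V := by
      refine isOpen_biInter_finset fun i _ => ?_
      refine isOpen_lt ?_ continuous_const
      exact ((WeakDual.eval_continuous (𝕜 := ℝ) (E := X) (d i)).sub continuous_const).abs
    have hf0V : f0 ∈ V := by
      refine mem_iInter₂.2 fun i _ => ?_
      simpa using hη
    obtain ⟨g', hg'V, hg'⟩ := mem_closure_iff.1 hf0 V hV hf0V
    have hg'V' : ∀ i < p, |g' (d i) - f0 (d i)| < 1 / (2 * (p + 1)) := fun i hi =>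
      mem_iInter₂.1 hg'V i (Finset.mem_range.2 hi)
    have hext := ext_of_mem hf2 hf3 hf4 hg'
    obtain ⟨N', hN'1, hN'2, g, hgK, hgd, hgy⟩ :=
      exists_chain (K := K) hK subset_closure hext d p hη N.2
    obtain ⟨G, -, -, -, -, n0, hn0⟩ := hext
    have h2 : (1 : ℝ) / (2 * (p + 1)) + 1 / (2 * (p + 1)) = 1 / (p + 1) := by field_simp; norm_num
    refine ⟨⟨N', hN'1⟩, hN'2, g, g', hgK, subset_closure hg', ?_, ?_, hgy, n0, hn0⟩
    · intro i hi
      have e1 := hgd i hi
      have e2 := (hg'V' i hi).le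
      calc |g (d i) - f0 (d i)| = |(g (d i) - g' (d i)) + (g' (d i) - f0 (d i))| := by ring_nf
        _ ≤ |g (d i) - g' (d i)| + |g' (d i) - f0 (d i)| := abs_add_le _ _
        _ ≤ 1 / (p + 1) := by linarith
    · intro i hi
      have e2 := (hg'V' i hi).le
      linarith
  choose N' hN'sub g g' hgK hg'K hgd hg'd hgy hg'y using hmain
  let Ns : ℕ → {N : Set ℕ // N.Infinite} := fun p => Nat.rec ⟨univ, infinite_univ⟩
    (fun p N => N' p N) p
  have hNs : ∀ p, Ns (p + 1) = N' p (Ns p) := fun p => rfl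
  have hanti : Antitone fun p => (Ns p).1 := by
    refine antitone_nat_of_succ_le fun p => ?_
    rw [hNs]
    exact hN'sub p (Ns p)
  have hnq : ∀ q : ℕ, ∃ n, n ∈ (Ns (q + 1)).1 ∧ q < n := by
    intro q
    obtain ⟨n, hn, hq⟩ := (Ns (q + 1)).2.exists_gt q
    exact ⟨n, hn, hq⟩
  choose n hn1 hn2 using hnq
  let γ : ℕ → WeakDual ℝ X := fun p => g p (Ns p)
  let γ' : ℕ → WeakDual ℝ X := fun p => g' p (Ns p)
  obtain ⟨F, -, hF⟩ := exists_lim (Z := X →L[ℝ] ℝ) (hyperfilter ℕ)
    (fun q => NormedSpace.inclusionInDoubleDual ℝ X (y (n q))) M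
    (fun q => (NormedSpace.double_dual_bound ℝ X _).trans (hM _))
  refine ⟨F, ?_⟩
  intro hcon
  have hlim : ∀ κ : ℕ → WeakDual ℝ X, (∀ p, κ p ∈ K) →
      (∀ p, ∀ i < p, |κ p (d i) - f0 (d i)| ≤ 1 / (p + 1 : ℝ)) →
      Tendsto (fun p => F (WeakDual.toStrongDual (κ p))) atTop
        (𝓝 (F (WeakDual.toStrongDual f0))) := by
    intro κ hκ hκd
    have h1 : Tendsto κ atTop (𝓝 f0) := by
      refine tendsto_weakDual hK hd hκ fun i => ?_
      rw [tendsto_iff_norm_sub_tendsto_zero]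
      refine squeeze_zero' (Eventually.of_forall fun _ => norm_nonneg _) ?_
        (tendsto_one_div_add_atTop_nhds_zero_nat (𝕜 := ℝ))
      filter_upwards [eventually_gt_atTop i] with p hp
      exact hκd p i hp
    have h2 : Tendsto κ atTop (𝓝[K] f0) :=
      tendsto_nhdsWithin_iff.2 ⟨h1, Eventually.of_forall hκ⟩
    exact Filter.Tendsto.comp (x := atTop) (y := 𝓝[K] f0) hcon h2
  have hA := hlim γ (fun p => hgK p (Ns p)) (fun p => hgd p (Ns p))
  have hB := hlim γ' (fun p => hg'K p (Ns p)) (fun p => hg'd p (Ns p))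
  have hA1 : ∀ p, F (WeakDual.toStrongDual (γ p)) = 1 := by
    intro p
    refine tendsto_nhds_unique (hF (WeakDual.toStrongDual (γ p))) ?_
    refine tendsto_const_nhds.congr' ?_
    have h1 : ∀ᶠ q in (atTop : Filter ℕ), (1 : ℝ) =
        NormedSpace.inclusionInDoubleDual ℝ X (y (n q)) (WeakDual.toStrongDual (γ p)) := by
      filter_upwards [eventually_ge_atTop p] with q hq
      rw [NormedSpace.dual_def]
      have h2 : n q ∈ (N' p (Ns p)).1 := by
        rw [← hNs]
        exact hanti (by omega : p + 1 ≤ q + 1) (hn1 q)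
      exact (hgy p (Ns p) (n q) h2).symm
    exact h1.filter_mono Nat.hyperfilter_le_atTop
  have hB1 : ∀ p, F (WeakDual.toStrongDual (γ' p)) = 0 := by
    intro p
    refine tendsto_nhds_unique (hF (WeakDual.toStrongDual (γ' p))) ?_
    refine tendsto_const_nhds.congr' ?_
    obtain ⟨n0, hn0⟩ := hg'y p (Ns p)
    have h1 : ∀ᶠ q in (atTop : Filter ℕ), (0 : ℝ) =
        NormedSpace.inclusionInDoubleDual ℝ X (y (n q)) (WeakDual.toStrongDual (γ' p)) := by
      filter_upwards [eventually_ge_atTop n0] with q hq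
      rw [NormedSpace.dual_def]
      exact (hn0 (n q) (hq.trans (hn2 q).le)).symm
    exact h1.filter_mono Nat.hyperfilter_le_atTop
  simp_rw [hA1] at hA
  simp_rw [hB1] at hB
  have e1 := tendsto_nhds_unique hA tendsto_const_nhds
  have e2 := tendsto_nhds_unique hB tendsto_const_nhds
  rw [e1] at e2
  exact one_ne_zero e2

end Helper67.SG
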