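import Pool.Agent.Helper67.SG.Defs

open Filter Topology Set

noncomputable section

namespace Helper67.SG

/-- ultrafilter limits of bounded sequences of functionals -/
lemma exists_lim {Z : Type*} [NormedAddCommGroup Z] [NormedSpace ℝ Z] {ι : Type*}
    (𝒰 : Ultrafilter ι) (f : ι → (Z →L[ℝ] ℝ)) (C : ℝ) (hf : ∀ i, ‖f i‖ ≤ C) :
    ∃ g : Z →L[ℝ] ℝ, ‖g‖ ≤ C ∧ ∀ z, Tendsto (fun i => f i z) 𝒰 (𝓝 (g z)) := by
  classical
  let S : Set (WeakDual ℝ Z) :=
    WeakDual.toStrongDual ⁻¹' Metric.closedBall (0 : StrongDual ℝ Z) C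
  have hS : IsCompact S := WeakDual.isCompact_closedBall (𝕜 := ℝ) (E := Z) 0 C
  let f' : ι → WeakDual ℝ Z := fun i => StrongDual.toWeakDual (f i)
  have h1 : ∀ i, f' i ∈ S := by
    intro i
    simp only [S, mem_preimage, Metric.mem_closedBall, dist_zero_right]
    exact hf i
  have h2 : ((𝒰.map f' : Ultrafilter (WeakDual ℝ Z)) : Filter (WeakDual ℝ Z)) ≤ 𝓟 S := by
    rw [Ultrafilter.coe_map, le_principal_iff]
    exact Filter.mem_map.2 (Filter.univ_mem' h1)
  obtain ⟨g, hg, hle⟩ := hS.ultrafilter_le_nhds _ h2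
  refine ⟨WeakDual.toStrongDual g, ?_, ?_⟩
  · simpa [S, mem_preimage, Metric.mem_closedBall, dist_zero_right] using hg
  · intro z
    have h3 : Tendsto f' 𝒰 (𝓝 g) := by
      rw [Ultrafilter.coe_map] at hle
      exact hle
    exact ((WeakDual.eval_continuous (𝕜 := ℝ) (E := Z) z).tendsto g).comp h3

end Helper67.SG
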