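import Pool.Agent.Helper67.SG.Uncond

open Filter Topology Set

noncomputable section

namespace Helper67.SG

universe u

variable {X : Type u} [NormedAddCommGroup X] [NormedSpace ℝ X]

lemma isCompact_ball : IsCompact {g : WeakDual ℝ X | ‖WeakDual.toStrongDual g‖ ≤ 1} := by
  have hS := WeakDual.isCompact_closedBall (𝕜 := ℝ) (E := X) 0 1
  have : {g : WeakDual ℝ X | ‖WeakDual.toStrongDual g‖ ≤ 1}
      = WeakDual.toStrongDual ⁻¹' Metric.closedBall (0 : StrongDual ℝ X) 1 := by
    ext g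
    simp [Metric.mem_closedBall, dist_zero_right]
  rw [this]
  exact hS

lemma convex_ball : Convex ℝ {g : WeakDual ℝ X | ‖WeakDual.toStrongDual g‖ ≤ 1} := by
  intro g hg k hk s t hs ht hst
  simp only [mem_setOf_eq] at hg hk ⊢
  rw [map_add, map_smul, map_smul]
  refine (norm_add_le _ _).trans ?_
  rw [norm_smul, norm_smul, Real.norm_of_nonneg hs, Real.norm_of_nonneg ht]
  nlinarith

lemma sep_of_equiv {Y : Type u} [NormedAddCommGroup Y] [NormedSpace ℝ Y]
    [TopologicalSpace.SeparableSpace X] (e : X ≃L[ℝ] Y) : TopologicalSpace.SeparableSpace Y :=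
  e.surjective.denseRange.separableSpace e.continuous

lemma complete_of_equiv {Y : Type u} [NormedAddCommGroup Y] [NormedSpace ℝ Y]
    [CompleteSpace X] (e : X ≃L[ℝ] Y) : CompleteSpace Y :=
  (completeSpace_congr (e := e.toLinearEquiv.toEquiv) e.isUniformEmbedding).1 inferInstance

lemma badNorm_of_classC [TopologicalSpace.SeparableSpace X] (hX : ClassC X) : HasBadNorm X := by
  classical
  obtain ⟨Y, i1, i2, ⟨e⟩, hG, hN⟩ := hX
  refine ⟨Y, i1, i2, ⟨e⟩, ?_⟩
  have hsep : TopologicalSpace.SeparableSpace Y := sep_of_equiv e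
  rintro f hf ⟨y, hy1, hfy⟩
  by_contra hcon
  unfold NotPC dualBall at hcon
  push Not at hcon
  obtain ⟨φ, hφ⟩ := hG y hy1
  have hfle : ∀ z : Y, f z ≤ ‖z‖ := by
    intro z
    have h1 := (WeakDual.toStrongDual f).le_opNorm z
    rw [hf, one_mul] at h1
    exact (le_abs_self _).trans h1
  have hφf : φ = WeakDual.toStrongDual f := by
    ext z
    have h1 := smulyan hφ (f := fun _ => WeakDual.toStrongDual f)
      (fun _ z => hfle z) (by
        rw [hy1]
        have : (WeakDual.toStrongDual f) y = 1 := hfy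
        simp only [this]
        exact tendsto_const_nhds) z
    exact tendsto_nhds_unique h1 tendsto_const_nhds |>.symm ▸ rfl
  apply hN y hy1
  refine ⟨φ, hφ, ?_⟩
  intro g hg hgy F'
  have hgle : ∀ n z, g n z ≤ ‖z‖ := by
    intro n z
    have h1 := (g n).le_opNorm z
    rw [hg n, one_mul] at h1
    exact (le_abs_self _).trans h1
  let γ : ℕ → WeakDual ℝ Y := fun n => StrongDual.toWeakDual (g n)
  have hγK : ∀ n, γ n ∈ {g : WeakDual ℝ Y | ‖WeakDual.toStrongDual g‖ ≤ 1} := fun n => (hg n).le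
  have hd : DenseRange (TopologicalSpace.denseSeq Y) := TopologicalSpace.denseRange_denseSeq Y
  have hγ : Tendsto γ atTop (𝓝 f) := by
    refine tendsto_weakDual isCompact_ball hd hγK fun i => ?_
    have h1 := smulyan hφ (f := g) hgle (by rw [hy1]; exact hgy) (TopologicalSpace.denseSeq Y i)
    rw [hφf] at h1
    exact h1
  have hγ' : Tendsto γ atTop (𝓝[{g : WeakDual ℝ Y | ‖WeakDual.toStrongDual g‖ ≤ 1}] f) :=
    tendsto_nhdsWithin_iff.2 ⟨hγ, Eventually.of_forall hγK⟩
  have h1 := Filter.Tendsto.comp (x := atTop)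
    (y := 𝓝[{g : WeakDual ℝ Y | ‖WeakDual.toStrongDual g‖ ≤ 1}] f) (hcon F') hγ'
  rw [hφf]
  exact h1

lemma classC_of_badNorm [CompleteSpace X] [TopologicalSpace.SeparableSpace X]
    (hX : HasBadNorm X) : ClassC X := by
  classical
  obtain ⟨Y, i1, i2, ⟨e⟩, hY⟩ := hX
  have hsep : TopologicalSpace.SeparableSpace Y := sep_of_equiv e
  have hcomp : CompleteSpace Y := complete_of_equiv e
  have h1 : HasNoSupportPCSet Y := by
    refine ⟨{g | ‖WeakDual.toStrongDual g‖ ≤ 1}, ⟨0, by simp⟩, convex_ball, isCompact_ball, ?_⟩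
    rintro f hf ⟨x, hx, hsup⟩
    have hf' : ‖WeakDual.toStrongDual f‖ ≤ 1 := hf
    have hxpos : 0 < ‖x‖ := norm_pos_iff.2 hx
    have hfx : f x = ‖x‖ := by
      apply le_antisymm
      · have h2 := (WeakDual.toStrongDual f).le_opNorm x
        have h3 : f x ≤ ‖(WeakDual.toStrongDual f) x‖ := le_abs_self _
        have h4 : ‖WeakDual.toStrongDual f‖ * ‖x‖ ≤ 1 * ‖x‖ := by gcongr
        linarith
      · obtain ⟨g, hg1, hg2⟩ := exists_dual_vector'' ℝ x
        have h2 := hsup (StrongDual.toWeakDual g) hg1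
        have h3 : (StrongDual.toWeakDual g) x = ‖x‖ := hg2
        rw [h3] at h2
        exact h2
    have hfn : ‖WeakDual.toStrongDual f‖ = 1 := by
      apply le_antisymm hf'
      have h2 := (WeakDual.toStrongDual f).le_opNorm x
      have h3 : ‖(WeakDual.toStrongDual f) x‖ = ‖x‖ := by
        have : (WeakDual.toStrongDual f) x = ‖x‖ := hfx
        rw [this, norm_norm]
      rw [h3] at h2
      by_contra hlt
      push Not at hlt
      have : ‖WeakDual.toStrongDual f‖ * ‖x‖ < 1 * ‖x‖ := by gcongr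
      linarith
    refine hY f hfn ⟨‖x‖⁻¹ • x, ?_, ?_⟩
    · rw [norm_smul, norm_inv, norm_norm]
      exact inv_mul_cancel₀ hxpos.ne'
    · rw [map_smul, smul_eq_mul, hfx]
      exact inv_mul_cancel₀ hxpos.ne'
  obtain ⟨Z, j1, j2, ⟨e'⟩, hZ⟩ := classC_of_noSupportPC h1
  exact ⟨Z, j1, j2, ⟨e.trans e'⟩, hZ⟩

theorem classC_iff_badNorm [CompleteSpace X] [TopologicalSpace.SeparableSpace X] :
    ClassC X ↔ HasBadNorm X :=
  ⟨badNorm_of_classC, classC_of_badNorm⟩

end Helper67.SG
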