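import Pool.Agent.Helper67.SG.Lim

open Filter Topology Set

noncomputable section

namespace Helper67.SG

universe u

variable {Y : Type u} [NormedAddCommGroup Y] [NormedSpace ℝ Y]

/-- difference quotients of the norm increase: for `0 < t ≤ 1` -/
lemma quot_le (x h : Y) {t : ℝ} (ht : 0 < t) (ht1 : t ≤ 1) :
    (‖x + t • h‖ - ‖x‖) / t ≤ ‖x + h‖ - ‖x‖ := by
  rw [div_le_iff₀ ht]
  have h1 : x + t • h = (1 - t) • x + t • (x + h) := by module
  have h2 : ‖x + t • h‖ ≤ (1 - t) * ‖x‖ + t * ‖x + h‖ := by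
    rw [h1]
    refine (norm_add_le _ _).trans ?_
    rw [norm_smul, norm_smul, Real.norm_of_nonneg (by linarith), Real.norm_of_nonneg ht.le]
  nlinarith

lemma subgrad {x : Y} {φ : Y →L[ℝ] ℝ} (hφ : IsGateauxDerivAt x φ) (h : Y) :
    φ h ≤ ‖x + h‖ - ‖x‖ := by
  have h1 : Tendsto (fun t : ℝ => (‖x + t • h‖ - ‖x‖) / t) (𝓝[>] 0) (𝓝 (φ h)) :=
    (hφ h).mono_left (nhdsWithin_mono _ (fun t ht => ne_of_gt ht))
  refine le_of_tendsto h1 ?_
  filter_upwards [Ioc_mem_nhdsGT (zero_lt_one' ℝ)] with t ht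
  exact quot_le x h ht.1 ht.2

lemma deriv_scale {x : Y} {φ : Y →L[ℝ] ℝ} (hφ : IsGateauxDerivAt x φ) {r : ℝ} (hr : 0 < r) :
    IsGateauxDerivAt (r • x) φ := by
  intro h
  have h1 : Tendsto (fun t : ℝ => t / r) (𝓝[≠] 0) (𝓝[≠] 0) := by
    refine tendsto_nhdsWithin_iff.2 ⟨?_, ?_⟩
    · have : Tendsto (fun t : ℝ => t / r) (𝓝 0) (𝓝 (0 / r)) := tendsto_id.div_const r
      rw [zero_div] at this
      exact this.mono_left nhdsWithin_le_nhds
    · filter_upwards [self_mem_nhdsWithin] with t ht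
      exact div_ne_zero ht hr.ne'
  have h2 := (hφ h).comp h1
  refine h2.congr' ?_
  filter_upwards [self_mem_nhdsWithin] with t ht
  have ht' : t ≠ 0 := ht
  have e1 : r • x + t • h = r • (x + (t / r) • h) := by
    rw [smul_add, smul_smul, mul_div_cancel₀ _ hr.ne']
  simp only [Function.comp]
  rw [e1, norm_smul, norm_smul, Real.norm_of_nonneg hr.le]
  field_simp

lemma deriv_unique {x : Y} {φ ψ : Y →L[ℝ] ℝ} (hφ : IsGateauxDerivAt x φ)
    (hψ : IsGateauxDerivAt x ψ) : φ = ψ := by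
  ext h
  exact tendsto_nhds_unique (hφ h) (hψ h)

lemma deriv_self {x : Y} {φ : Y →L[ℝ] ℝ} (hφ : IsGateauxDerivAt x φ) : φ x = ‖x‖ := by
  have h1 := subgrad hφ x
  have h2 := subgrad hφ (-x)
  have h3 : ‖x + x‖ = 2 * ‖x‖ := by
    rw [← two_smul ℝ x, norm_smul]; norm_num
  rw [map_neg, add_neg_cancel, norm_zero] at h2
  linarith

lemma deriv_norm_le {x : Y} {φ : Y →L[ℝ] ℝ} (hφ : IsGateauxDerivAt x φ) (h : Y) :
    |φ h| ≤ ‖h‖ := by
  rw [abs_le]
  constructor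
  · have := subgrad hφ (-h)
    have h1 : ‖x + -h‖ ≤ ‖x‖ + ‖h‖ := by
      refine (norm_add_le _ _).trans ?_
      rw [norm_neg]
    rw [map_neg] at this
    linarith
  · have := subgrad hφ h
    have h1 : ‖x + h‖ ≤ ‖x‖ + ‖h‖ := norm_add_le _ _
    linarith

/-- the Gateaux derivative is norm-to-weak* continuous -/
lemma deriv_tendsto {φ : Y → (Y →L[ℝ] ℝ)} {x : Y} {u : ℕ → Y}
    (hu : Tendsto u atTop (𝓝 x)) (hx : IsGateauxDerivAt x (φ x))
    (hd : ∀ n, IsGateauxDerivAt (u n) (φ (u n))) (h : Y) :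
    Tendsto (fun n => φ (u n) h) atTop (𝓝 (φ x h)) := by
  have key : ∀ h : Y, ∀ b, φ x h < b → ∀ᶠ n in atTop, φ (u n) h < b := by
    intro h b hb
    have h1 : Tendsto (fun t : ℝ => (‖x + t • h‖ - ‖x‖) / t) (𝓝[>] 0) (𝓝 (φ x h)) :=
      (hx h).mono_left (nhdsWithin_mono _ (fun t ht => ne_of_gt ht))
    have h2 : ∀ᶠ t in 𝓝[>] (0 : ℝ), (‖x + t • h‖ - ‖x‖) / t < b :=
      (tendsto_order.1 h1).2 b hb
    obtain ⟨t, ht, ht0⟩ := (h2.and self_mem_nhdsWithin).exists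
    have ht0' : 0 < t := ht0
    have h3 : Tendsto (fun n => (‖u n + t • h‖ - ‖u n‖) / t) atTop
        (𝓝 ((‖x + t • h‖ - ‖x‖) / t)) :=
      (((hu.add_const (t • h)).norm).sub hu.norm).div_const t
    filter_upwards [(tendsto_order.1 h3).2 b ht] with n hn
    refine lt_of_le_of_lt ?_ hn
    rw [le_div_iff₀ ht0']
    have := subgrad (hd n) (t • h)
    rw [map_smul, smul_eq_mul] at this
    linarith
  refine tendsto_order.2 ⟨fun b hb => ?_, fun b hb => key h b hb⟩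
  have h4 := key (-h) (-b) (by rw [map_neg]; linarith)
  filter_upwards [h4] with n hn
  rw [map_neg] at hn
  linarith

/-- Smulyan: a Fréchet type estimate implies strong Gateaux differentiability -/
lemma strongly_of_frechet {x : Y} {φ : Y →L[ℝ] ℝ} (hφ : IsGateauxDerivAt x φ) (hx : ‖x‖ = 1)
    (hF : ∀ ε : ℝ, 0 < ε → ∃ δ : ℝ, 0 < δ ∧ ∀ h : Y, ‖h‖ ≤ δ →
      ‖x + h‖ - ‖x‖ - φ h ≤ ε * ‖h‖) : StronglyGateauxAt x := by
  refine ⟨φ, hφ, ?_⟩
  intro f hf hfx F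
  have h1 : Tendsto f atTop (𝓝 φ) := by
    rw [Metric.tendsto_atTop]
    intro ε hε
    obtain ⟨δ, hδ, hδF⟩ := hF (ε / 4) (by positivity)
    have h2 : ∀ᶠ n in atTop, 1 - f n x < δ * (ε / 4) := by
      have h3 : Tendsto (fun n => 1 - f n x) atTop (𝓝 (1 - 1)) := tendsto_const_nhds.sub hfx
      rw [sub_self] at h3
      exact (tendsto_order.1 h3).2 _ (by positivity)
    obtain ⟨N, hN⟩ := eventually_atTop.1 h2
    refine ⟨N, fun n hn => ?_⟩
    have h4 := hN n hn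
    have h5 : ∀ h : Y, ‖h‖ ≤ δ → (f n - φ) h ≤ δ * (ε / 2) := by
      intro h hh
      have h6 : f n (x + h) ≤ ‖x + h‖ := by
        calc f n (x + h) ≤ ‖f n (x + h)‖ := le_abs_self _
          _ ≤ ‖f n‖ * ‖x + h‖ := (f n).le_opNorm _
          _ = ‖x + h‖ := by rw [hf n, one_mul]
      have h7 := hδF h hh
      rw [map_add] at h6
      have h8 : (f n - φ) h = f n h - φ h := rfl
      rw [h8]
      have h9 : ε / 4 * ‖h‖ ≤ ε / 4 * δ := by gcongr
      rw [hx] at h7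
      nlinarith
    have h10 : ‖f n - φ‖ ≤ ε / 2 := by
      refine ContinuousLinearMap.opNorm_le_bound _ (by positivity) ?_
      intro h
      by_cases hh : h = 0
      · subst hh; simp
      have hpos : 0 < ‖h‖ := norm_pos_iff.2 hh
      have h11 : ∀ g : Y, ‖g‖ = ‖h‖ → (f n - φ) g ≤ ε / 2 * ‖h‖ := by
        intro g hg
        have h12 := h5 ((δ / ‖h‖) • g) (by
          rw [norm_smul, Real.norm_of_nonneg (by positivity), hg,
            div_mul_cancel₀ _ hpos.ne'])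
        rw [map_smul, smul_eq_mul, div_mul_eq_mul_div, div_le_iff₀ hpos] at h12
        have : δ * ((f n - φ) g) ≤ δ * (ε / 2 * ‖h‖) := by linarith
        exact le_of_mul_le_mul_left this hδ
      rw [Real.norm_eq_abs, abs_le]
      constructor
      · have := h11 (-h) (norm_neg h)
        rw [map_neg] at this
        linarith
      · exact h11 h rfl
    rw [dist_eq_norm]
    linarith
  exact (F.continuous.tendsto φ).comp h1

/-- in a complete space with separable dual, a norm that is Gateaux differentiable on the sphere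
is strongly Gateaux differentiable at some point of the sphere -/
theorem exists_strongly [CompleteSpace Y] [Nontrivial Y]
    (hsep : TopologicalSpace.SeparableSpace (Y →L[ℝ] ℝ))
    (hG : ∀ x : Y, ‖x‖ = 1 → ∃ φ : Y →L[ℝ] ℝ, IsGateauxDerivAt x φ) :
    ∃ x : Y, ‖x‖ = 1 ∧ StronglyGateauxAt x := by
  classical
  have hG' : ∀ x : Y, x ≠ 0 → ∃ φ : Y →L[ℝ] ℝ, IsGateauxDerivAt x φ := by
    intro x hx
    have hpos : 0 < ‖x‖ := norm_pos_iff.2 hx
    obtain ⟨φ, hφ⟩ := hG (‖x‖⁻¹ • x) (by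
      rw [norm_smul, norm_inv, norm_norm, inv_mul_cancel₀ hpos.ne'])
    refine ⟨φ, ?_⟩
    have := deriv_scale hφ hpos
    rwa [smul_smul, mul_inv_cancel₀ hpos.ne', one_smul] at this
  choose! φ hφ using hG'
  let g : ℕ → (Y →L[ℝ] ℝ) := TopologicalSpace.denseSeq (Y →L[ℝ] ℝ)
  have hg : DenseRange g := TopologicalSpace.denseRange_denseSeq _
  let A : ℕ → ℕ → Set Y := fun m k => {x | x = 0 ∨ ‖φ x - g k‖ ≤ 1 / ((m : ℝ) + 1)}
  have hclosed : ∀ m k, IsClosed (A m k) := by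
    intro m k
    refine IsSeqClosed.isClosed ?_
    intro u x hu hux
    by_cases hx : x = 0
    · exact Or.inl hx
    right
    have hev : ∀ᶠ n in atTop, u n ≠ 0 := hux.eventually_ne hx
    obtain ⟨N, hN⟩ := eventually_atTop.1 hev
    have hux' : Tendsto (fun n => u (n + N)) atTop (𝓝 x) := hux.comp (tendsto_add_atTop_nat N)
    have hne : ∀ n, u (n + N) ≠ 0 := fun n => hN _ (Nat.le_add_left N n)
    refine ContinuousLinearMap.opNorm_le_bound _ (by positivity) ?_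
    intro h
    have h1 := deriv_tendsto (φ := φ) hux' (hφ x hx) (fun n => hφ _ (hne n)) h
    have h2 : Tendsto (fun n => ‖φ (u (n + N)) h - g k h‖) atTop (𝓝 ‖φ x h - g k h‖) :=
      (h1.sub_const _).norm
    refine le_of_tendsto h2 (Eventually.of_forall fun n => ?_)
    have h3 : ‖φ (u (n + N)) - g k‖ ≤ 1 / ((m : ℝ) + 1) :=
      (hu (n + N)).resolve_left (hne n)
    calc ‖φ (u (n + N)) h - g k h‖ = ‖(φ (u (n + N)) - g k) h‖ := rfl
      _ ≤ ‖φ (u (n + N)) - g k‖ * ‖h‖ := ContinuousLinearMap.le_opNorm _ _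
      _ ≤ 1 / ((m : ℝ) + 1) * ‖h‖ := by gcongr
  have hcover : ∀ m, (⋃ k, A m k) = univ := by
    intro m
    refine eq_univ_of_forall fun x => ?_
    obtain ⟨k, hk⟩ := hg.exists_dist_lt (φ x) (show (0 : ℝ) < 1 / ((m : ℝ) + 1) by positivity)
    refine mem_iUnion.2 ⟨k, Or.inr ?_⟩
    rw [dist_eq_norm] at hk
    exact hk.le
  have hdense : ∀ m, Dense (⋃ k, interior (A m k)) := fun m =>
    dense_iUnion_interior_of_closed (hclosed m) (hcover m)
  have hdense2 : Dense (⋂ m, ⋃ k, interior (A m k)) :=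
    dense_iInter_of_isOpen (fun m => isOpen_iUnion fun k => isOpen_interior) hdense
  obtain ⟨x₁, hx₁⟩ := exists_ne (0 : Y)
  obtain ⟨x, hx0, hxm⟩ : ∃ x, x ∈ ({0}ᶜ : Set Y) ∧ x ∈ ⋂ m, ⋃ k, interior (A m k) := by
    have := hdense2.inter_open_nonempty ({0}ᶜ : Set Y) isOpen_compl_singleton ⟨x₁, hx₁⟩
    obtain ⟨x, hx1, hx2⟩ := this
    exact ⟨x, hx1, hx2⟩
  have hx : x ≠ 0 := hx0
  have hr : 0 < ‖x‖ := norm_pos_iff.2 hx
  have hFr : ∀ ε : ℝ, 0 < ε → ∃ δ : ℝ, 0 < δ ∧ ∀ h : Y, ‖h‖ ≤ δ →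
      ‖x + h‖ - ‖x‖ - φ x h ≤ ε * ‖h‖ := by
    intro ε hε
    obtain ⟨m, hm⟩ := exists_nat_one_div_lt (show (0 : ℝ) < ε / 2 by positivity)
    obtain ⟨k, hk⟩ := mem_iUnion.1 (mem_iInter.1 hxm m)
    obtain ⟨ρ, hρ, hball⟩ := Metric.isOpen_iff.1 isOpen_interior x hk
    refine ⟨min (ρ / 2) (‖x‖ / 2), lt_min (by positivity) (by positivity), ?_⟩
    intro h hh
    have hh1 : ‖h‖ ≤ ρ / 2 := hh.trans (min_le_left _ _)
    have hh2 : ‖h‖ ≤ ‖x‖ / 2 := hh.trans (min_le_right _ _)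
    have hxh : x + h ≠ 0 := by
      intro h0
      have : ‖x‖ = ‖h‖ := by rw [eq_neg_of_add_eq_zero_left h0, norm_neg]
      linarith
    have h1 : x + h ∈ A m k := interior_subset (hball (by
      rw [Metric.mem_ball, dist_eq_norm, add_sub_cancel_left]; linarith))
    have h2 : x ∈ A m k := interior_subset hk
    have h3 : ‖φ (x + h) - g k‖ ≤ 1 / ((m : ℝ) + 1) := h1.resolve_left hxh
    have h4 : ‖φ x - g k‖ ≤ 1 / ((m : ℝ) + 1) := h2.resolve_left hx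
    have h5 : ‖φ (x + h) - φ x‖ ≤ ε := by
      calc ‖φ (x + h) - φ x‖ = ‖(φ (x + h) - g k) - (φ x - g k)‖ := by congr 1; abel
        _ ≤ ‖φ (x + h) - g k‖ + ‖φ x - g k‖ := norm_sub_le _ _
        _ ≤ ε := by linarith
    have h6 := subgrad (hφ (x + h) hxh) (-h)
    rw [add_neg_cancel_right, map_neg] at h6
    have h7 : φ (x + h) h - φ x h ≤ ε * ‖h‖ := by
      calc φ (x + h) h - φ x h = (φ (x + h) - φ x) h := rfl
        _ ≤ ‖(φ (x + h) - φ x) h‖ := le_abs_self _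
        _ ≤ ‖φ (x + h) - φ x‖ * ‖h‖ := ContinuousLinearMap.le_opNorm _ _
        _ ≤ ε * ‖h‖ := by gcongr
    linarith
  have hinv : 0 < ‖x‖⁻¹ := by positivity
  refine ⟨‖x‖⁻¹ • x, ?_, ?_⟩
  · rw [norm_smul, norm_inv, norm_norm, inv_mul_cancel₀ hr.ne']
  have hn1 : ‖‖x‖⁻¹ • x‖ = 1 := by
    rw [norm_smul, norm_inv, norm_norm, inv_mul_cancel₀ hr.ne']
  refine strongly_of_frechet (deriv_scale (hφ x hx) hinv) hn1 ?_
  intro ε hε
  obtain ⟨δ, hδ, hδF⟩ := hFr ε hε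
  refine ⟨δ / ‖x‖, by positivity, ?_⟩
  intro h hh
  have h1 := hδF (‖x‖ • h) (by
    rw [norm_smul, norm_norm]
    rw [le_div_iff₀ hr] at hh
    linarith)
  have e1 : ‖x‖⁻¹ • x + h = ‖x‖⁻¹ • (x + ‖x‖ • h) := by
    rw [smul_add, smul_smul, inv_mul_cancel₀ hr.ne', one_smul]
  have e2 : ‖‖x‖⁻¹ • x + h‖ = ‖x‖⁻¹ * ‖x + ‖x‖ • h‖ := by
    rw [e1, norm_smul, norm_inv, norm_norm]
  rw [e2, hn1]
  rw [map_smul, smul_eq_mul, norm_smul, norm_norm] at h1
  have h2 : ‖x‖⁻¹ * (‖x + ‖x‖ • h‖ - ‖x‖ - ‖x‖ * (φ x) h) ≤ ‖x‖⁻¹ * (ε * (‖x‖ * ‖h‖)) := by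
    gcongr
  have e3 : ‖x‖⁻¹ * (‖x + ‖x‖ • h‖ - ‖x‖ - ‖x‖ * (φ x) h)
      = ‖x‖⁻¹ * ‖x + ‖x‖ • h‖ - 1 - (φ x) h := by field_simp
  have e4 : ‖x‖⁻¹ * (ε * (‖x‖ * ‖h‖)) = ε * ‖h‖ := by field_simp
  rw [e3, e4] at h2
  exact h2

/-- a nonzero Banach space with separable dual is not in the class -/
theorem not_classC_of_separable_dual {X : Type u} [NormedAddCommGroup X] [NormedSpace ℝ X]
    [CompleteSpace X] [Nontrivial X]
    (hsep : TopologicalSpace.SeparableSpace (X →L[ℝ] ℝ)) : ¬ ClassC X := by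
  rintro ⟨Y, i1, i2, ⟨e⟩, hG, hN⟩
  have : CompleteSpace Y :=
    (completeSpace_congr (e := e.toLinearEquiv.toEquiv) e.isUniformEmbedding).1 inferInstance
  have : Nontrivial Y := e.injective.nontrivial
  have hsepY : TopologicalSpace.SeparableSpace (Y →L[ℝ] ℝ) := by
    let T : (X →L[ℝ] ℝ) → (Y →L[ℝ] ℝ) := fun f => f.comp (e.symm : Y →L[ℝ] X)
    have hT : Continuous T :=
      ((ContinuousLinearMap.compL ℝ Y X ℝ).flip (e.symm : Y →L[ℝ] X)).continuous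
    have hsurj : Function.Surjective T := by
      intro g
      refine ⟨g.comp (e : X →L[ℝ] Y), ?_⟩
      ext y
      simp [T]
    exact hsurj.denseRange.separableSpace hT
  obtain ⟨x, hx, hs⟩ := exists_strongly hsepY hG
  exact hN x hx hs

end Helper67.SG
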