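import Pool.Agent.Helper67.SG.USet
import Pool.Agent.Helper67.SG.Sep

open Filter Topology Set

noncomputable section

namespace Helper67.SG

universe u

/-! ### abstract equivalent norms -/

/-- an equivalent norm, abstractly -/
structure EqNorm (X : Type u) [NormedAddCommGroup X] [NormedSpace ℝ X] where
  N : X → ℝ
  add_le : ∀ x y, N (x + y) ≤ N x + N y
  smul_eq : ∀ (c : ℝ) x, N (c • x) = |c| * N x
  lower : ∀ x, (1 / 2) * ‖x‖ ≤ N x
  R : ℝ
  upper : ∀ x, N x ≤ R * ‖x‖

variable {X : Type u} [NormedAddCommGroup X] [NormedSpace ℝ X]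

/-- the space `X` with the norm `N` -/
def Sp (_E : EqNorm X) : Type u := X

instance (E : EqNorm X) : AddCommGroup (Sp E) := inferInstanceAs (AddCommGroup X)
instance (E : EqNorm X) : Module ℝ (Sp E) := inferInstanceAs (Module ℝ X)
instance (E : EqNorm X) : Norm (Sp E) := ⟨fun x => E.N x⟩

lemma Sp.core (E : EqNorm X) : NormedSpace.Core ℝ (Sp E) where
  norm_nonneg x := by
    have h1 : (1 / 2) * ‖(show X from x)‖ ≤ E.N x := E.lower x
    have h2 : 0 ≤ ‖(show X from x)‖ := norm_nonneg _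
    change 0 ≤ E.N x
    linarith
  norm_smul c x := E.smul_eq c x
  norm_triangle x y := E.add_le x y
  norm_eq_zero_iff x := by
    constructor
    · intro h
      have h1 : (1 / 2) * ‖(show X from x)‖ ≤ E.N x := E.lower x
      have h2 : E.N x = 0 := h
      have h3 : ‖(show X from x)‖ = 0 := le_antisymm (by linarith) (norm_nonneg _)
      exact norm_eq_zero.1 h3
    · intro h
      have h1 := E.smul_eq 0 (0 : X)
      rw [smul_zero, abs_zero, zero_mul] at h1
      rw [h]
      exact h1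

instance (E : EqNorm X) : NormedAddCommGroup (Sp E) := NormedAddCommGroup.ofCore (Sp.core E)
instance (E : EqNorm X) : NormedSpace ℝ (Sp E) := NormedSpace.ofCore (Sp.core E)

/-- the identity as a linear equivalence -/
def Sp.linEquiv (E : EqNorm X) : X ≃ₗ[ℝ] Sp E :=
  { toFun := fun x => x
    invFun := fun x => x
    map_add' := fun _ _ => rfl
    map_smul' := fun _ _ => rfl
    left_inv := fun _ => rfl
    right_inv := fun _ => rfl }

/-- the identity as an isomorphism -/
def Sp.equiv (E : EqNorm X) : X ≃L[ℝ] Sp E :=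
  (Sp.linEquiv E).toContinuousLinearEquivOfBounds E.R 2 (fun x => E.upper x) (fun x => by
    have h1 : (1 / 2) * ‖(show X from x)‖ ≤ E.N x := E.lower x
    change ‖(show X from x)‖ ≤ 2 * E.N x
    linarith)

lemma Sp.norm_equiv (E : EqNorm X) (x : X) : ‖Sp.equiv E x‖ = E.N x := rfl

/-! ### strongly Gateaux differentiability tested on the unit ball -/

lemma sg_ball {Y : Type u} [NormedAddCommGroup Y] [NormedSpace ℝ Y] {x : Y} (hx : ‖x‖ = 1)
    (hs : StronglyGateauxAt x) {φ : Y →L[ℝ] ℝ} (hφ : IsGateauxDerivAt x φ)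
    {f : ℕ → (Y →L[ℝ] ℝ)} (hf : ∀ n y, f n y ≤ ‖y‖) (hfx : Tendsto (fun n => f n x) atTop (𝓝 1))
    (F : (Y →L[ℝ] ℝ) →L[ℝ] ℝ) : Tendsto (fun n => F (f n)) atTop (𝓝 (F φ)) := by
  classical
  obtain ⟨φ', hφ', hs⟩ := hs
  obtain rfl : φ' = φ := deriv_unique hφ' hφ
  have hle : ∀ n, ‖f n‖ ≤ 1 := by
    intro n
    refine ContinuousLinearMap.opNorm_le_bound _ zero_le_one ?_
    intro y
    rw [one_mul, Real.norm_eq_abs, abs_le]
    have h1 := hf n y
    have h2 := hf n (-y)
    rw [map_neg, norm_neg] at h2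
    constructor <;> linarith
  have hφ1 : ‖φ'‖ = 1 := by
    apply le_antisymm
    · refine ContinuousLinearMap.opNorm_le_bound _ zero_le_one ?_
      intro y
      rw [one_mul]
      exact deriv_norm_le hφ y
    · have h1 := deriv_self hφ
      rw [hx] at h1
      have h2 := φ'.le_opNorm x
      rw [hx, mul_one, h1] at h2
      simpa using h2
  let r : ℕ → ℝ := fun n => ‖f n‖
  let g : ℕ → (Y →L[ℝ] ℝ) := fun n => if f n = 0 then φ' else (r n)⁻¹ • f n
  have hr : Tendsto r atTop (𝓝 1) := by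
    refine tendsto_of_tendsto_of_tendsto_of_le_of_le hfx tendsto_const_nhds ?_ hle
    intro n
    have h2 := (f n).le_opNorm x
    rw [hx, mul_one] at h2
    exact (le_abs_self _).trans h2
  have hg : ∀ n, ‖g n‖ = 1 := by
    intro n
    simp only [g]
    split_ifs with h
    · exact hφ1
    · rw [norm_smul, norm_inv, norm_norm]
      exact inv_mul_cancel₀ (norm_ne_zero_iff.2 h)
  have hev : ∀ᶠ n in atTop, f n ≠ 0 := by
    have : ∀ᶠ n in atTop, r n ∈ Ioi (0 : ℝ) := hr.eventually (Ioi_mem_nhds one_pos)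
    filter_upwards [this] with n hn h0
    simp only [r, h0, norm_zero, mem_Ioi, lt_self_iff_false] at hn
  have hgf : ∀ᶠ n in atTop, f n = r n • g n := by
    filter_upwards [hev] with n hn
    simp only [g, if_neg hn]
    rw [smul_smul, mul_inv_cancel₀ (norm_ne_zero_iff.2 hn), one_smul]
  have hgx : Tendsto (fun n => g n x) atTop (𝓝 1) := by
    have h1 : Tendsto (fun n => (r n)⁻¹ * f n x) atTop (𝓝 (1⁻¹ * 1)) :=
      (hr.inv₀ one_ne_zero).mul hfx
    rw [inv_one, one_mul] at h1
    refine h1.congr' ?_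
    filter_upwards [hev] with n hn
    simp only [g, if_neg hn]
    rfl
  have h3 := hs g hg hgx F
  have h4 : Tendsto (fun n => r n * F (g n)) atTop (𝓝 (1 * F φ')) := hr.mul h3
  rw [one_mul] at h4
  refine h4.congr' ?_
  filter_upwards [hgf] with n hn
  rw [hn, map_smul, smul_eq_mul]

/-! ### the norm -/

variable {d : ℕ → X} {K : Set (WeakDual ℝ X)}

lemma K_bounded [CompleteSpace X] (hK : IsCompact K) :
    ∃ C : ℝ, 0 ≤ C ∧ ∀ f ∈ K, ‖WeakDual.toStrongDual f‖ ≤ C := by
  have h1 : ∀ x : X, ∃ C, ∀ i : K, ‖(WeakDual.toStrongDual (i : WeakDual ℝ X)) x‖ ≤ C := by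
    intro x
    obtain ⟨C, hC⟩ := hK.exists_bound_of_continuousOn
      (f := fun f : WeakDual ℝ X => f x) (WeakDual.eval_continuous (𝕜 := ℝ) (E := X) x).continuousOn
    exact ⟨C, fun i => hC i i.2⟩
  obtain ⟨C', hC'⟩ := banach_steinhaus h1
  refine ⟨max C' 0, le_max_right _ _, fun f hf => (hC' ⟨f, hf⟩).trans (le_max_left _ _)⟩

lemma USet_bounded [CompleteSpace X] (hK : IsCompact K) :
    ∃ R : ℝ, 0 ≤ R ∧ ∀ f ∈ USet d K, ‖WeakDual.toStrongDual f‖ ≤ R := by
  obtain ⟨C, hC0, hC⟩ := K_bounded hK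
  refine ⟨1 + C + C, by positivity, ?_⟩
  rintro _ ⟨t, ht0, ht1, ⟨_, ⟨b, k, k', hb, hk, hk', rfl⟩, rfl⟩, -⟩
  rw [map_smul, norm_smul, Real.norm_of_nonneg ht0, map_sub, map_add]
  have h1 : ‖WeakDual.toStrongDual b + WeakDual.toStrongDual k - WeakDual.toStrongDual k'‖
      ≤ 1 + C + C := by
    refine (norm_sub_le _ _).trans (add_le_add ((norm_add_le _ _).trans (add_le_add hb (hC _ hk)))
      (hC _ hk'))
  have h0 := norm_nonneg
    (WeakDual.toStrongDual b + WeakDual.toStrongDual k - WeakDual.toStrongDual k')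
  nlinarith

/-- the new norm -/
def newN (d : ℕ → X) (K : Set (WeakDual ℝ X)) (x : X) : ℝ :=
  sSup ((fun φ : WeakDual ℝ X => φ x) '' USet d K)

lemma USet_nonempty (hne : K.Nonempty) : (USet d K).Nonempty :=
  ⟨0, half_ball_subset_USet hne (by simp)⟩

lemma exists_newN (hK : IsCompact K) (hne : K.Nonempty) (x : X) :
    ∃ φ ∈ USet d K, φ x = newN d K x := by
  have h1 : IsCompact ((fun φ : WeakDual ℝ X => φ x) '' USet d K) :=
    (isCompact_USet hK).image (WeakDual.eval_continuous (𝕜 := ℝ) (E := X) x)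
  obtain ⟨φ, hφ, h⟩ := h1.sSup_mem ((USet_nonempty hne).image _)
  exact ⟨φ, hφ, h⟩

lemma le_newN (hK : IsCompact K) {φ : WeakDual ℝ X} (hφ : φ ∈ USet d K) (x : X) :
    φ x ≤ newN d K x := by
  have h1 : IsCompact ((fun φ : WeakDual ℝ X => φ x) '' USet d K) :=
    (isCompact_USet hK).image (WeakDual.eval_continuous (𝕜 := ℝ) (E := X) x)
  exact le_csSup h1.bddAbove ⟨φ, hφ, rfl⟩

lemma newN_lower (hK : IsCompact K) (hne : K.Nonempty) (x : X) : (1 / 2) * ‖x‖ ≤ newN d K x := by
  obtain ⟨g, hg1, hg2⟩ := exists_dual_vector'' ℝ x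
  have h1 : StrongDual.toWeakDual ((1 / 2 : ℝ) • g) ∈ USet d K := by
    refine half_ball_subset_USet hne ?_
    change ‖(1 / 2 : ℝ) • g‖ ≤ 1 / 2
    rw [norm_smul]
    norm_num
    exact hg1
  have h2 := le_newN hK h1 x
  have h3 : (StrongDual.toWeakDual ((1 / 2 : ℝ) • g)) x = (1 / 2) * ‖x‖ := by
    change ((1 / 2 : ℝ) • g) x = _
    rw [show ((1 / 2 : ℝ) • g) x = (1 / 2 : ℝ) * g x from rfl, hg2]
    rfl
  linarith

lemma newN_add (hK : IsCompact K) (hne : K.Nonempty) (x y : X) :
    newN d K (x + y) ≤ newN d K x + newN d K y := by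
  obtain ⟨φ, hφ, h⟩ := exists_newN (d := d) hK hne (x + y)
  rw [← h]
  have e : φ (x + y) = φ x + φ y := map_add φ x y
  rw [e]
  exact add_le_add (le_newN hK hφ x) (le_newN hK hφ y)

lemma newN_smul_le (hK : IsCompact K) (hne : K.Nonempty) (c : ℝ) (x : X) :
    newN d K (c • x) ≤ |c| * newN d K x := by
  obtain ⟨φ, hφ, h⟩ := exists_newN (d := d) hK hne (c • x)
  rw [← h]
  have e : φ (c • x) = c * φ x := map_smul φ c x
  rw [e]
  rcases le_or_gt 0 c with hc | hc
  · rw [abs_of_nonneg hc]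
    exact mul_le_mul_of_nonneg_left (le_newN hK hφ x) hc
  · rw [abs_of_neg hc]
    have h2 := le_newN hK (neg_mem_USet hφ) x
    have h3 : (-φ) x = - φ x := rfl
    rw [h3] at h2
    nlinarith

lemma newN_smul (hK : IsCompact K) (hne : K.Nonempty) (c : ℝ) (x : X) :
    newN d K (c • x) = |c| * newN d K x := by
  apply le_antisymm (newN_smul_le hK hne c x)
  by_cases hc : c = 0
  · subst hc
    have := newN_lower (d := d) hK hne ((0 : ℝ) • x)
    rw [abs_zero, zero_mul]
    refine le_trans ?_ this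
    positivity
  · have h1 := newN_smul_le (d := d) hK hne c⁻¹ (c • x)
    rw [smul_smul, inv_mul_cancel₀ hc, one_smul, abs_inv] at h1
    have hc' : 0 < |c| := abs_pos.2 hc
    calc |c| * newN d K x ≤ |c| * (|c|⁻¹ * newN d K (c • x)) := by gcongr
      _ = newN d K (c • x) := by field_simp

lemma exists_seq (hd : DenseRange d) {C : ℝ} (hC : ∀ f ∈ K, ‖WeakDual.toStrongDual f‖ ≤ C)
    {f : WeakDual ℝ X} (hf : f ∈ K) {F : (X →L[ℝ] ℝ) →L[ℝ] ℝ}
    (hF : ¬ ContinuousWithinAt (fun g : WeakDual ℝ X => F (WeakDual.toStrongDual g)) K f) :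
    ∃ ε : ℝ, 0 < ε ∧ ∃ g : ℕ → WeakDual ℝ X, (∀ n, g n ∈ K) ∧
      (∀ x, Tendsto (fun n => g n x) atTop (𝓝 (f x))) ∧
      ∀ n, ε ≤ |F (WeakDual.toStrongDual (g n)) - F (WeakDual.toStrongDual f)| := by
  unfold ContinuousWithinAt at hF
  rw [Metric.tendsto_nhds] at hF
  push Not at hF
  obtain ⟨ε, hε, hfr⟩ := hF
  have hV : ∀ n : ℕ, ∃ g : WeakDual ℝ X, g ∈ K ∧ (∀ i ∈ Finset.range n,
      |g (d i) - f (d i)| < 1 / (n + 1 : ℝ)) ∧
      ε ≤ |F (WeakDual.toStrongDual g) - F (WeakDual.toStrongDual f)| := by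
    intro n
    have h1 : ∀ᶠ g in 𝓝[K] f, g ∈ K ∧ ∀ i ∈ Finset.range n,
        |g (d i) - f (d i)| < 1 / (n + 1 : ℝ) := by
      refine Filter.Eventually.and self_mem_nhdsWithin ?_
      rw [Filter.eventually_all_finset]
      intro i _
      have h2 : Tendsto (fun g : WeakDual ℝ X => |g (d i) - f (d i)|) (𝓝[K] f) (𝓝 0) := by
        have h3 : ContinuousAt (fun g : WeakDual ℝ X => |g (d i) - f (d i)|) f :=
          (((WeakDual.eval_continuous (𝕜 := ℝ) (E := X) (d i)).sub continuous_const).abs).continuousAt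
        have h4 : |f (d i) - f (d i)| = 0 := by simp
        have h3' : Tendsto (fun g : WeakDual ℝ X => |g (d i) - f (d i)|) (𝓝 f)
          (𝓝 |f (d i) - f (d i)|) := h3
        rw [h4] at h3'
        exact h3'.mono_left nhdsWithin_le_nhds
      exact h2.eventually (Iio_mem_nhds (by positivity))
    obtain ⟨g, hg1, hg2, hg3⟩ := (hfr.and_eventually h1).exists
    refine ⟨g, hg2, hg3, ?_⟩
    rw [Real.dist_eq] at hg1
    exact hg1
  choose g hgK hgV hgF using hV
  refine ⟨ε, hε, g, hgK, ?_, hgF⟩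
  have hC0 : 0 ≤ C := (norm_nonneg _).trans (hC f hf)
  intro x
  rw [Metric.tendsto_atTop]
  intro η hη
  obtain ⟨i, hi⟩ := hd.exists_dist_lt x (ε := η / (4 * (C + 1))) (by positivity)
  obtain ⟨N, hN⟩ := exists_nat_one_div_lt (show (0 : ℝ) < η / 2 by positivity)
  refine ⟨max N (i + 1), fun n hn => ?_⟩
  have hn1 : N ≤ n := (le_max_left _ _).trans hn
  have hn2 : i < n := (le_max_right _ _).trans hn
  have h1 := hgV n i (Finset.mem_range.2 hn2)
  have h2 : 1 / (n + 1 : ℝ) ≤ 1 / (N + 1 : ℝ) := by gcongr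
  have h3 : |g n (x - d i)| ≤ C * ‖x - d i‖ :=
    ((WeakDual.toStrongDual (g n)).le_opNorm (x - d i)).trans
      (mul_le_mul_of_nonneg_right (hC _ (hgK n)) (norm_nonneg _))
  have h4 : |f (x - d i)| ≤ C * ‖x - d i‖ :=
    ((WeakDual.toStrongDual f).le_opNorm (x - d i)).trans
      (mul_le_mul_of_nonneg_right (hC _ hf) (norm_nonneg _))
  have h5 : g n (x - d i) = g n x - g n (d i) := map_sub (g n) x (d i)
  have h6 : f (x - d i) = f x - f (d i) := map_sub f x (d i)
  rw [h5] at h3
  rw [h6] at h4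
  rw [dist_eq_norm] at hi
  have h7 : C * ‖x - d i‖ ≤ η / 4 := by
    calc C * ‖x - d i‖ ≤ (C + 1) * (η / (4 * (C + 1))) := by
          apply mul_le_mul (by linarith) hi.le (norm_nonneg _) (by linarith)
      _ = η / 4 := by field_simp
  rw [Real.dist_eq]
  rw [abs_lt] at h1 ⊢
  rw [abs_le] at h3 h4
  constructor <;> linarith [h1.1, h1.2, h3.1, h3.2, h4.1, h4.2]

/-- the approximation property of nonzero elements of the set -/
lemma approx_USet [CompleteSpace X] (hd : DenseRange d) (hK : IsCompact K)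
    (hPC : ∀ f ∈ K, ∃ F : (X →L[ℝ] ℝ) →L[ℝ] ℝ,
      ¬ ContinuousWithinAt (fun g : WeakDual ℝ X => F (WeakDual.toStrongDual g)) K f)
    {φ : WeakDual ℝ X} (hφ : φ ∈ USet d K) (hφ0 : φ ≠ 0) :
    ∃ F : (X →L[ℝ] ℝ) →L[ℝ] ℝ, ∃ h : ℕ → WeakDual ℝ X, (∀ n, h n ∈ USet d K) ∧
      (∀ x, Tendsto (fun n => h n x) atTop (𝓝 (φ x))) ∧
      ¬ Tendsto (fun n => F (WeakDual.toStrongDual (h n))) atTop
        (𝓝 (F (WeakDual.toStrongDual φ))) := by
  obtain ⟨C, hC0, hC⟩ := K_bounded hK
  obtain ⟨t, ht0, ht1, ⟨_, ⟨b, k, k', hb, hk, hk', rfl⟩, hφe⟩, hq⟩ := hφ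
  have htpos : 0 < t := by
    rcases ht0.eq_or_lt with h | h
    · exfalso
      apply hφ0
      rw [hφe, ← h, zero_smul]
    · exact h
  obtain ⟨F, hF⟩ := hPC k hk
  obtain ⟨ε, hε, u, huK, huk, huF⟩ := exists_seq hd hC hk hF
  let g : ℕ → WeakDual ℝ X := fun n => t • (b + u n - k')
  have hgx : ∀ x, Tendsto (fun n => g n x) atTop (𝓝 (φ x)) := by
    intro x
    have h1 : Tendsto (fun n => t * (b x + u n x - k' x)) atTop (𝓝 (t * (b x + k x - k' x))) :=
      (((huk x).const_add (b x)).sub_const (k' x)).const_mul t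
    rw [hφe]
    exact h1
  have hgR : ∀ n, ‖WeakDual.toStrongDual (g n)‖ ≤ 1 + C + C := by
    intro n
    simp only [g]
    rw [map_smul, norm_smul, Real.norm_of_nonneg ht0, map_sub, map_add]
    have h1 : ‖WeakDual.toStrongDual b + WeakDual.toStrongDual (u n) - WeakDual.toStrongDual k'‖
        ≤ 1 + C + C := by
      refine (norm_sub_le _ _).trans (add_le_add
        ((norm_add_le _ _).trans (add_le_add hb (hC _ (huK n)))) (hC _ hk'))
    have h0 := norm_nonneg
      (WeakDual.toStrongDual b + WeakDual.toStrongDual (u n) - WeakDual.toStrongDual k')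
    nlinarith
  have hgq : Tendsto (fun n => q d (WeakDual.toStrongDual (g n))) atTop
      (𝓝 (q d (WeakDual.toStrongDual φ))) := q_tendsto d (1 + C + C) hgR hgx
  let r : ℕ → ℝ := fun n => max 1 (Real.sqrt (t ^ 2 + q d (WeakDual.toStrongDual (g n))))
  have hr1 : ∀ n, 1 ≤ r n := fun n => le_max_left _ _
  have hr : Tendsto r atTop (𝓝 1) := by
    have h1 : Tendsto r atTop
        (𝓝 (max 1 (Real.sqrt (t ^ 2 + q d (WeakDual.toStrongDual φ))))) := by
      refine tendsto_const_nhds.max ?_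
      exact (Real.continuous_sqrt.tendsto _).comp (hgq.const_add _)
    have h2 : max 1 (Real.sqrt (t ^ 2 + q d (WeakDual.toStrongDual φ))) = 1 := by
      apply max_eq_left
      rw [Real.sqrt_le_one]
      exact hq
    rwa [h2] at h1
  have hrq : ∀ n, t ^ 2 + q d (WeakDual.toStrongDual (g n)) ≤ (r n) ^ 2 := by
    intro n
    have h0 : 0 ≤ t ^ 2 + q d (WeakDual.toStrongDual (g n)) := by
      have := q_nonneg d (WeakDual.toStrongDual (g n))
      positivity
    have h1 : Real.sqrt (t ^ 2 + q d (WeakDual.toStrongDual (g n))) ≤ r n := le_max_right _ _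
    calc t ^ 2 + q d (WeakDual.toStrongDual (g n))
        = (Real.sqrt (t ^ 2 + q d (WeakDual.toStrongDual (g n)))) ^ 2 := (Real.sq_sqrt h0).symm
      _ ≤ (r n) ^ 2 := by gcongr
  refine ⟨F, fun n => (1 / r n) • g n, ?_, ?_, ?_⟩
  · intro n
    exact mem_USet_of ht0 ⟨b, u n, k', hb, huK n, hk', rfl⟩ rfl (hr1 n) ht1 (hrq n)
  · intro x
    have h1 : Tendsto (fun n => (1 / r n) * g n x) atTop (𝓝 ((1 / 1) * φ x)) :=
      (tendsto_const_nhds.div hr one_ne_zero).mul (hgx x)
    rw [div_one, one_mul] at h1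
    exact h1
  · intro hcon
    have h1 : Tendsto (fun n => r n * F (WeakDual.toStrongDual ((1 / r n) • g n))) atTop
        (𝓝 (1 * F (WeakDual.toStrongDual φ))) := hr.mul hcon
    rw [one_mul] at h1
    have h2 : ∀ n, r n * F (WeakDual.toStrongDual ((1 / r n) • g n))
        = F (WeakDual.toStrongDual (g n)) := by
      intro n
      have h3 : r n ≠ 0 := by
        have := hr1 n
        positivity
      rw [map_smul, map_smul, smul_eq_mul]
      field_simp
    simp_rw [h2] at h1
    rw [Metric.tendsto_atTop] at h1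
    obtain ⟨N, hN⟩ := h1 (t * ε) (by positivity)
    have h3 := hN N le_rfl
    rw [Real.dist_eq] at h3
    have h4 : F (WeakDual.toStrongDual (g N)) - F (WeakDual.toStrongDual φ)
        = t * (F (WeakDual.toStrongDual (u N)) - F (WeakDual.toStrongDual k)) := by
      rw [hφe]
      simp only [g, map_smul, map_sub, map_add, smul_eq_mul]
      ring
    rw [h4, abs_mul, abs_of_pos htpos] at h3
    have h5 := huF N
    have h6 : t * ε ≤ t * |F (WeakDual.toStrongDual (u N)) - F (WeakDual.toStrongDual k)| := by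
      gcongr
    linarith

lemma unique_max (hc : Convex ℝ K) (hne : K.Nonempty) (hd : DenseRange d) (hK : IsCompact K)
    {x : X} (hx : x ≠ 0) {f g : WeakDual ℝ X} (hf : f ∈ USet d K) (hg : g ∈ USet d K)
    (hfx : f x = newN d K x) (hgx : g x = newN d K x) : f = g := by
  by_contra hfg
  obtain ⟨δ, hδ, hm⟩ := strict_USet hc hne hd hf hg hfg
  have h1 := le_newN hK hm x
  have h2 : ((1 + δ) • ((1 / 2 : ℝ) • (f + g))) x = (1 + δ) * ((1 / 2) * (f x + g x)) := rfl
  rw [h2, hfx, hgx] at h1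
  have h3 := newN_lower (d := d) hK hne x
  have h4 : 0 < ‖x‖ := norm_pos_iff.2 hx
  nlinarith

lemma newN_deriv [CompleteSpace X] (hc : Convex ℝ K) (hne : K.Nonempty) (hd : DenseRange d)
    (hK : IsCompact K) {x : X} (hx : x ≠ 0) {φ : WeakDual ℝ X} (hφ : φ ∈ USet d K)
    (hφx : φ x = newN d K x) (h : X) :
    Tendsto (fun t : ℝ => (newN d K (x + t • h) - newN d K x) / t) (𝓝[≠] 0) (𝓝 (φ h)) := by
  classical
  choose ψ hψ hψx using fun y : X => exists_newN (d := d) hK hne y
  have hlim : Tendsto (fun t : ℝ => ψ (x + t • h)) (𝓝[≠] 0) (𝓝 φ) := by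
    refine (isCompact_USet (d := d) hK).tendsto_nhds_of_unique_mapClusterPt
      (Eventually.of_forall fun t => hψ _) ?_
    intro ψ' hψ' hcl
    refine unique_max hc hne hd hK hx hψ' hφ ?_ hφx
    have h1 : Tendsto (fun t : ℝ => ψ (x + t • h) x) (𝓝[≠] 0) (𝓝 (newN d K x)) := by
      have hb : ∀ t : ℝ, |ψ (x + t • h) x - newN d K x| ≤ |t| * (2 * newN d K h) := by
        intro t
        have e1 : ψ (x + t • h) (x + t • h) = ψ (x + t • h) x + t * ψ (x + t • h) h := by
          rw [map_add, map_smul]; rfl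
        have e2 := hψx (x + t • h)
        have e3 : ψ (x + t • h) x ≤ newN d K x := le_newN hK (hψ _) x
        have e4 : newN d K x ≤ newN d K (x + t • h) + newN d K ((-t) • h) := by
          have := newN_add (d := d) hK hne (x + t • h) ((-t) • h)
          rwa [show x + t • h + (-t) • h = x by module] at this
        rw [newN_smul hK hne, abs_neg] at e4
        have e5 : |ψ (x + t • h) h| ≤ newN d K h := by
          rw [abs_le]
          constructor
          · have := le_newN hK (neg_mem_USet (hψ (x + t • h))) h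
            have e : (-ψ (x + t • h)) h = - ψ (x + t • h) h := rfl
            rw [e] at this
            linarith
          · exact le_newN hK (hψ _) h
        have e6 : t * ψ (x + t • h) h ≤ |t| * newN d K h := by
          refine (le_abs_self _).trans ?_
          rw [abs_mul]
          gcongr
        rw [abs_le]
        constructor <;> nlinarith [abs_nonneg t]
      have h2 : Tendsto (fun t : ℝ => |t| * (2 * newN d K h)) (𝓝[≠] 0) (𝓝 0) := by
        have h3 : Continuous fun t : ℝ => |t| * (2 * newN d K h) := by fun_prop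
        have h4 := (h3.tendsto 0).mono_left (nhdsWithin_le_nhds (s := {0}ᶜ))
        simpa using h4
      rw [tendsto_iff_norm_sub_tendsto_zero]
      exact squeeze_zero (fun _ => norm_nonneg _) hb h2
    have h2 : ClusterPt (ψ' x) (map (fun t : ℝ => ψ (x + t • h) x) (𝓝[≠] 0)) := by
      have h3 := hcl.tendsto_comp
        ((WeakDual.eval_continuous (𝕜 := ℝ) (E := X) x).tendsto ψ')
      exact h3
    exact eq_of_nhds_neBot (h2.mono h1)
  have hlimh : Tendsto (fun t : ℝ => ψ (x + t • h) h) (𝓝[≠] 0) (𝓝 (φ h)) :=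
    ((WeakDual.eval_continuous (𝕜 := ℝ) (E := X) h).tendsto φ).comp hlim
  rw [tendsto_iff_norm_sub_tendsto_zero] at hlimh ⊢
  refine squeeze_zero' (Eventually.of_forall fun _ => norm_nonneg _) ?_ hlimh
  filter_upwards [self_mem_nhdsWithin] with t ht
  have ht' : t ≠ 0 := ht
  have e1 : ψ (x + t • h) (x + t • h) = ψ (x + t • h) x + t * ψ (x + t • h) h := by
    rw [map_add, map_smul]; rfl
  have e2 := hψx (x + t • h)
  have e3 : ψ (x + t • h) x ≤ newN d K x := le_newN hK (hψ _) x
  have e4 : φ (x + t • h) ≤ newN d K (x + t • h) := le_newN hK hφ _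
  have e5 : φ (x + t • h) = φ x + t * φ h := by rw [map_add, map_smul]; rfl
  rw [Real.norm_eq_abs, Real.norm_eq_abs]
  rcases lt_or_gt_of_ne ht' with hneg | hpos
  · have f1 : ψ (x + t • h) h ≤ (newN d K (x + t • h) - newN d K x) / t := by
      rw [le_div_iff_of_neg hneg]; nlinarith
    have f2 : (newN d K (x + t • h) - newN d K x) / t ≤ φ h := by
      rw [div_le_iff_of_neg hneg]; nlinarith
    rw [abs_of_nonpos (by linarith), abs_of_nonpos (by linarith)]
    linarith
  · have f1 : (newN d K (x + t • h) - newN d K x) / t ≤ ψ (x + t • h) h := by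
      rw [div_le_iff₀ hpos]; nlinarith
    have f2 : φ h ≤ (newN d K (x + t • h) - newN d K x) / t := by
      rw [le_div_iff₀ hpos]; nlinarith
    rw [abs_of_nonneg (by linarith), abs_of_nonneg (by linarith)]
    linarith

/-- **Theorem**: a separable Banach space whose dual contains a weak*-compact convex set
without points of weak*-to-weak continuity has a Gateaux smooth norm which is nowhere
strongly Gateaux smooth. -/
theorem classC_of_noPC [CompleteSpace X] [TopologicalSpace.SeparableSpace X]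
    (hX : HasNoPCSet X) : ClassC X := by
  classical
  obtain ⟨K, hne, hc, hK, hPC⟩ := hX
  let d : ℕ → X := TopologicalSpace.denseSeq X
  have hd : DenseRange d := TopologicalSpace.denseRange_denseSeq X
  obtain ⟨R, hR0, hR⟩ := USet_bounded (d := d) hK
  let E : EqNorm X :=
    { N := newN d K
      add_le := newN_add hK hne
      smul_eq := newN_smul hK hne
      lower := newN_lower hK hne
      R := R
      upper := by
        intro x
        obtain ⟨φ, hφ, h⟩ := exists_newN (d := d) hK hne x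
        rw [← h]
        refine (le_abs_self _).trans ?_
        exact ((WeakDual.toStrongDual φ).le_opNorm x).trans
          (mul_le_mul_of_nonneg_right (hR φ hφ) (norm_nonneg _)) }
  let e : X ≃L[ℝ] Sp E := Sp.equiv E
  have hnorm : ∀ y : Sp E, ‖y‖ = newN d K (e.symm y) := fun y => rfl
  have hderiv : ∀ x : Sp E, ‖x‖ = 1 → ∀ φ ∈ USet d K, φ (e.symm x) = newN d K (e.symm x) →
      IsGateauxDerivAt x ((WeakDual.toStrongDual φ).comp (e.symm : Sp E →L[ℝ] X)) := by
    intro x hx φ hφ hφx h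
    have hx0 : e.symm x ≠ 0 := by
      intro h0
      have : x = 0 := by
        have := congrArg e h0
        simpa using this
      rw [this, norm_zero] at hx
      exact zero_ne_one hx
    exact newN_deriv hc hne hd hK hx0 hφ hφx (e.symm h)
  refine ⟨Sp E, inferInstance, inferInstance, ⟨e⟩, ?_, ?_⟩
  · intro x hx
    obtain ⟨φ, hφ, hφx⟩ := exists_newN (d := d) hK hne (e.symm x)
    exact ⟨_, hderiv x hx φ hφ hφx⟩
  · intro x hx hs
    obtain ⟨φ, hφ, hφx⟩ := exists_newN (d := d) hK hne (e.symm x)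
    have hφ1 : φ (e.symm x) = 1 := by rw [hφx, ← hnorm, hx]
    have hφ0 : φ ≠ 0 := by
      intro h0
      rw [h0] at hφ1
      have : (0 : WeakDual ℝ X) (e.symm x) = 0 := rfl
      rw [this] at hφ1
      exact zero_ne_one hφ1
    obtain ⟨F, g, hgU, hgx, hgF⟩ := approx_USet hd hK hPC hφ hφ0
    apply hgF
    let T : (Sp E →L[ℝ] ℝ) →L[ℝ] (X →L[ℝ] ℝ) :=
      (ContinuousLinearMap.compL ℝ X (Sp E) ℝ).flip (e : X →L[ℝ] Sp E)
    have hT : ∀ f : WeakDual ℝ X,
        T ((WeakDual.toStrongDual f).comp (e.symm : Sp E →L[ℝ] X)) = WeakDual.toStrongDual f := by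
      intro f
      ext y
      simp [T]
    have h1 := sg_ball hx hs (hderiv x hx φ hφ hφx)
      (f := fun n => (WeakDual.toStrongDual (g n)).comp (e.symm : Sp E →L[ℝ] X))
      (fun n y => by
        rw [hnorm]
        exact le_newN hK (hgU n) (e.symm y))
      (by
        have := hgx (e.symm x)
        rw [hφ1] at this
        exact this)
      (F.comp T)
    simp only [ContinuousLinearMap.comp_apply] at h1
    simp only [hT] at h1
    exact h1

end Helper67.SG
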