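import Pool.Agent.Helper67.SG.Smooth
import Pool.Agent.Helper67.SG.L1b

open Filter Topology Set

noncomputable section

namespace Helper67.SG

universe u

variable {X : Type u} [NormedAddCommGroup X] [NormedSpace ℝ X]

lemma HasNoPCSet.support (h : HasNoPCSet X) : HasNoSupportPCSet X := by
  obtain ⟨K, h1, h2, h3, h4⟩ := h
  exact ⟨K, h1, h2, h3, fun f hf _ => h4 f hf⟩

variable {d : ℕ → X} {K : Set (WeakDual ℝ X)}

/-- the vector representing the derivative of `q` -/
def wv (d : ℕ → X) (f : X →L[ℝ] ℝ) : X := ∑' i, (wt d i * f (d i)) • d i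

lemma wv_term_le (d : ℕ → X) (f : X →L[ℝ] ℝ) (i : ℕ) :
    ‖(wt d i * f (d i)) • d i‖ ≤ (1 / 2) ^ i * ‖f‖ := by
  rw [norm_smul, norm_mul, Real.norm_of_nonneg (wt_pos d i).le]
  unfold wt
  rw [div_mul_eq_mul_div, div_mul_eq_mul_div, div_le_iff₀ (by positivity), mul_assoc, mul_assoc]
  have h1 : ‖f (d i)‖ ≤ ‖f‖ * ‖d i‖ := f.le_opNorm _
  have h2 : ‖f (d i)‖ * ‖d i‖ ≤ ‖f‖ * (1 + ‖d i‖) ^ 2 := by
    calc ‖f (d i)‖ * ‖d i‖ ≤ (‖f‖ * ‖d i‖) * ‖d i‖ := by gcongr
      _ = ‖f‖ * (‖d i‖ ^ 2) := by ring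
      _ ≤ ‖f‖ * (1 + ‖d i‖) ^ 2 := by
        have := norm_nonneg (d i)
        gcongr
        linarith
  gcongr

lemma summable_wv [CompleteSpace X] (d : ℕ → X) (f : X →L[ℝ] ℝ) :
    Summable fun i => (wt d i * f (d i)) • d i :=
  Summable.of_norm_bounded (summable_geo ‖f‖) (wv_term_le d f)

lemma apply_wv [CompleteSpace X] (d : ℕ → X) (f g : X →L[ℝ] ℝ) :
    g (wv d f) = ∑' i, wt d i * f (d i) * g (d i) := by
  unfold wv
  rw [g.map_tsum (summable_wv d f)]
  congr 1
  ext i
  rw [map_smul, smul_eq_mul]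

lemma summable_cross [CompleteSpace X] (d : ℕ → X) (f g : X →L[ℝ] ℝ) :
    Summable fun i => wt d i * f (d i) * g (d i) := by
  have h := (summable_wv d f).map g g.continuous
  refine h.congr fun i => ?_
  simp only [Function.comp_apply, map_smul, smul_eq_mul]

lemma q_expand [CompleteSpace X] (d : ℕ → X) (f h : X →L[ℝ] ℝ) (s : ℝ) :
    q d (f + s • h) = q d f + 2 * s * h (wv d f) + s ^ 2 * q d h := by
  rw [apply_wv]
  unfold q
  rw [← tsum_mul_left, ← tsum_mul_left,
    ← (summable_q d f).tsum_add ((summable_cross d f h).mul_left _),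
    ← ((summable_q d f).add ((summable_cross d f h).mul_left _)).tsum_add
      ((summable_q d h).mul_left _)]
  congr 1
  ext i
  have e : (f + s • h) (d i) = f (d i) + s * h (d i) := rfl
  rw [e]
  ring

lemma q_self [CompleteSpace X] (d : ℕ → X) (f : X →L[ℝ] ℝ) : f (wv d f) = q d f := by
  rw [apply_wv]
  unfold q
  congr 1
  ext i
  ring

/-- scaling estimate -/
lemma scale_est (hK : IsCompact K) (hne : K.Nonempty) {τ : ℝ} (hτ : 0 ≤ τ) {b : WeakDual ℝ X}
    (hb : b ∈ BSet K) (x : X) :
    (τ • b) x ≤ Real.sqrt (τ ^ 2 + q d (WeakDual.toStrongDual (τ • b))) * newN d K x := by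
  have hq := q_nonneg d (WeakDual.toStrongDual (τ • b))
  rcases hτ.eq_or_lt with h0 | hpos
  · have h1 : (τ • b) x = 0 := by
      rw [← h0, zero_smul]; rfl
    rw [h1]
    have h2 := newN_lower (d := d) hK hne x
    have h3 : 0 ≤ newN d K x := le_trans (by positivity) h2
    positivity
  · set ρ := τ ^ 2 + q d (WeakDual.toStrongDual (τ • b)) with hρ
    have hρpos : 0 < ρ := by positivity
    have hs : 0 < Real.sqrt ρ := Real.sqrt_pos.2 hρpos
    have hmem : (1 / Real.sqrt ρ) • (τ • b) ∈ USet d K := by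
      refine ⟨τ / Real.sqrt ρ, by positivity, ?_, ⟨b, hb, ?_⟩, ?_⟩
      · rw [div_le_one hs]
        apply Real.le_sqrt_of_sq_le
        linarith
      · rw [smul_smul]
        congr 1
        ring
      · rw [map_smul, q_smul]
        have e : (τ / Real.sqrt ρ) ^ 2 + (1 / Real.sqrt ρ) ^ 2 *
            q d (WeakDual.toStrongDual (τ • b)) = ρ / (Real.sqrt ρ) ^ 2 := by
          rw [hρ]
          field_simp
        rw [e, Real.sq_sqrt hρpos.le, div_self hρpos.ne']
    have h1 := le_newN hK hmem x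
    have h2 : ((1 / Real.sqrt ρ) • (τ • b)) x = (1 / Real.sqrt ρ) * (τ • b) x := rfl
    rw [h2, div_mul_eq_mul_div, one_mul, div_le_iff₀ hs] at h1
    linarith

/-- the `K`-component of a maximal functional is a weak*-support point -/
lemma support_of_max [CompleteSpace X] (hc : Convex ℝ K) (hK : IsCompact K) (hne : K.Nonempty)
    {x : X} (hx : x ≠ 0) {t : ℝ} (ht : 0 < t) {b k k' : WeakDual ℝ X}
    (hb : ‖WeakDual.toStrongDual b‖ ≤ 1) (hk : k ∈ K) (hk' : k' ∈ K)
    (hq : t ^ 2 + q d (WeakDual.toStrongDual (t • (b + k - k'))) ≤ 1)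
    (hmax : (t • (b + k - k')) x = newN d K x) :
    ∃ x1 : X, x1 ≠ 0 ∧ ∀ g ∈ K, g x1 ≤ k x1 := by
  set φ : WeakDual ℝ X := t • (b + k - k') with hφ
  set N := newN d K x with hN
  have hNpos : 0 < N := by
    have h1 := newN_lower (d := d) hK hne x
    have h2 : 0 < ‖x‖ := norm_pos_iff.2 hx
    linarith
  refine ⟨x - N • wv d (WeakDual.toStrongDual φ), ?_, ?_⟩
  · intro h0
    have h1 : x = N • wv d (WeakDual.toStrongDual φ) := sub_eq_zero.1 h0
    have h2 : N = N * q d (WeakDual.toStrongDual φ) := by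
      have h3 : (WeakDual.toStrongDual φ) x = N := hmax
      have h4 : (WeakDual.toStrongDual φ) x
          = N * (WeakDual.toStrongDual φ) (wv d (WeakDual.toStrongDual φ)) := by
        conv_lhs => rw [h1]
        rw [map_smul, smul_eq_mul]
      rw [q_self] at h4
      rw [h3] at h4
      exact h4
    have h3 : q d (WeakDual.toStrongDual φ) = 1 := by
      have : N * 1 = N * q d (WeakDual.toStrongDual φ) := by rw [mul_one]; exact h2
      exact (mul_left_cancel₀ hNpos.ne' this).symm
    rw [h3] at hq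
    have : 0 < t ^ 2 := by positivity
    linarith
  · intro κ hκ
    -- the perturbation inequality
    set h : X →L[ℝ] ℝ := WeakDual.toStrongDual κ - WeakDual.toStrongDual k with hh
    set m : ℝ := h x with hm
    set β : ℝ := h (wv d (WeakDual.toStrongDual φ)) with hβ
    have key : ∀ s : ℝ, 0 < s → s ≤ 1 →
        N + s * t * m ≤ Real.sqrt (1 + 2 * (s * t) * β + (s * t) ^ 2 * q d h) * N := by
      intro s hs hs1
      have hks : k + s • (κ - k) ∈ K := by
        have h1 : k + s • (κ - k) = (1 - s) • k + s • κ := by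
          rw [smul_sub, sub_smul, one_smul]; abel
        rw [h1]
        exact hc hk hκ (by linarith) hs.le (by ring)
      have hbs : b + (k + s • (κ - k)) - k' ∈ BSet K := ⟨b, _, k', hb, hks, hk', rfl⟩
      have h1 := scale_est (d := d) hK hne ht.le hbs x
      have h2 : t • (b + (k + s • (κ - k)) - k') = φ + (s * t) • (κ - k) := by
        rw [hφ]
        simp only [smul_add, smul_sub, smul_smul]
        rw [mul_comm t s]
        abel
      rw [h2] at h1
      have h3 : (φ + (s * t) • (κ - k)) x = N + s * t * m := by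
        have : (φ + (s * t) • (κ - k)) x = φ x + (s * t) * (κ x - k x) := rfl
        rw [this, hmax]
        rfl
      have h4 : WeakDual.toStrongDual (φ + (s * t) • (κ - k))
          = WeakDual.toStrongDual φ + (s * t) • h := rfl
      rw [h3, h4, q_expand] at h1
      refine h1.trans ?_
      have h5 : Real.sqrt (t ^ 2 + (q d (WeakDual.toStrongDual φ) + 2 * (s * t) * β
          + (s * t) ^ 2 * q d h))
          ≤ Real.sqrt (1 + 2 * (s * t) * β + (s * t) ^ 2 * q d h) := by
        apply Real.sqrt_le_sqrt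
        linarith
      exact mul_le_mul_of_nonneg_right h5 hNpos.le
    -- deduce `m ≤ N β`
    have hfin : m ≤ N * β := by
      have hlin : ∀ s : ℝ, 0 < s → s ≤ 1 → m ≤ N * β + s * (t * N * q d h) := by
        intro s hs hs1
        have h1 := key s hs hs1
        have hsqrt : Real.sqrt (1 + 2 * (s * t) * β + (s * t) ^ 2 * q d h)
            ≤ 1 + ((s * t) * β + (s * t) ^ 2 * q d h / 2) := by
          by_cases hpos : 0 ≤ 1 + 2 * (s * t) * β + (s * t) ^ 2 * q d h
          · have h2 := Real.add_one_le_exp (0 : ℝ)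
            have h3 : Real.sqrt (1 + 2 * (s * t) * β + (s * t) ^ 2 * q d h) ≤
                (1 + (1 + 2 * (s * t) * β + (s * t) ^ 2 * q d h)) / 2 := by
              set z := Real.sqrt (1 + 2 * (s * t) * β + (s * t) ^ 2 * q d h) with hz
              have h4 : z ^ 2 = 1 + 2 * (s * t) * β + (s * t) ^ 2 * q d h := Real.sq_sqrt hpos
              nlinarith [sq_nonneg (z - 1)]
            linarith
          · push Not at hpos
            exfalso
            have h2 : Real.sqrt (1 + 2 * (s * t) * β + (s * t) ^ 2 * q d h) = 0 :=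
              Real.sqrt_eq_zero_of_nonpos hpos.le
            -- the expression is a value of `t^2 + q ≤ ...`
            have h3 : 0 ≤ t ^ 2 + q d (WeakDual.toStrongDual φ + (s * t) • h) := by
              have := q_nonneg d (WeakDual.toStrongDual φ + (s * t) • h)
              positivity
            rw [q_expand] at h3
            linarith
        have h2 : N + s * t * m ≤ (1 + ((s * t) * β + (s * t) ^ 2 * q d h / 2)) * N :=
          h1.trans (mul_le_mul_of_nonneg_right hsqrt hNpos.le)
        have h3 : s * t * m ≤ s * t * (N * β + s * t * N * q d h / 2) := by nlinarith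
        have h4 : m ≤ N * β + s * t * N * q d h / 2 :=
          le_of_mul_le_mul_left h3 (by positivity)
        have h5 : 0 ≤ s * (t * N * q d h) := by
          have := q_nonneg d h
          positivity
        nlinarith
      refine le_of_forall_pos_le_add fun ε hε => ?_
      set C := t * N * q d h with hC
      have hC0 : 0 ≤ C := by
        have := q_nonneg d h
        positivity
      have h1 := hlin (min 1 (ε / (C + 1))) (by positivity) (min_le_left _ _)
      have h2 : min 1 (ε / (C + 1)) * C ≤ ε := by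
        calc min 1 (ε / (C + 1)) * C ≤ (ε / (C + 1)) * C := by
              gcongr
              exact min_le_right _ _
          _ ≤ (ε / (C + 1)) * (C + 1) := by gcongr; linarith
          _ = ε := by field_simp
      linarith
    have e1 : κ (x - N • wv d (WeakDual.toStrongDual φ))
        = κ x - N * κ (wv d (WeakDual.toStrongDual φ)) := by
      rw [map_sub, map_smul, smul_eq_mul]
    have e2 : k (x - N • wv d (WeakDual.toStrongDual φ))
        = k x - N * k (wv d (WeakDual.toStrongDual φ)) := by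
      rw [map_sub, map_smul, smul_eq_mul]
    have e3 : m = κ x - k x := rfl
    have e4 : β = κ (wv d (WeakDual.toStrongDual φ)) - k (wv d (WeakDual.toStrongDual φ)) := rfl
    rw [e1, e2]
    rw [e3, e4] at hfin
    linarith

/-- the approximation property for a given decomposition -/
lemma approx_of_dec (hd : DenseRange d) {C : ℝ}
    (hC : ∀ f ∈ K, ‖WeakDual.toStrongDual f‖ ≤ C)
    {t : ℝ} (ht : 0 < t) (ht1 : t ≤ 1) {b k k' : WeakDual ℝ X}
    (hb : ‖WeakDual.toStrongDual b‖ ≤ 1) (hk : k ∈ K) (hk' : k' ∈ K)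
    (hq : t ^ 2 + q d (WeakDual.toStrongDual (t • (b + k - k'))) ≤ 1)
    (hPC : ∃ F : (X →L[ℝ] ℝ) →L[ℝ] ℝ,
      ¬ ContinuousWithinAt (fun g : WeakDual ℝ X => F (WeakDual.toStrongDual g)) K k) :
    ∃ F : (X →L[ℝ] ℝ) →L[ℝ] ℝ, ∃ h : ℕ → WeakDual ℝ X, (∀ n, h n ∈ USet d K) ∧
      (∀ x, Tendsto (fun n => h n x) atTop (𝓝 ((t • (b + k - k')) x))) ∧
      ¬ Tendsto (fun n => F (WeakDual.toStrongDual (h n))) atTop
        (𝓝 (F (WeakDual.toStrongDual (t • (b + k - k'))))) := by
  obtain ⟨F, hF⟩ := hPC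
  obtain ⟨ε, hε, u, huK, huk, huF⟩ := exists_seq hd hC hk hF
  set φ : WeakDual ℝ X := t • (b + k - k') with hφe
  let g : ℕ → WeakDual ℝ X := fun n => t • (b + u n - k')
  have hgx : ∀ x, Tendsto (fun n => g n x) atTop (𝓝 (φ x)) := by
    intro x
    have h1 : Tendsto (fun n => t * (b x + u n x - k' x)) atTop (𝓝 (t * (b x + k x - k' x))) :=
      (((huk x).const_add (b x)).sub_const (k' x)).const_mul t
    rw [hφe]
    exact h1
  have hgR : ∀ n, ‖WeakDual.toStrongDual (g n)‖ ≤ 1 + C + C := by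
    intro n
    simp only [g]
    rw [map_smul, norm_smul, Real.norm_of_nonneg ht.le, map_sub, map_add]
    have h1 : ‖WeakDual.toStrongDual b + WeakDual.toStrongDual (u n) - WeakDual.toStrongDual k'‖
        ≤ 1 + C + C := by
      refine (norm_sub_le _ _).trans (add_le_add
        ((norm_add_le _ _).trans (add_le_add hb (hC _ (huK n)))) (hC _ hk'))
    have h0 := norm_nonneg
      (WeakDual.toStrongDual b + WeakDual.toStrongDual (u n) - WeakDual.toStrongDual k')
    nlinarith
  have hgq : Tendsto (fun n => q d (WeakDual.toStrongDual (g n))) atTop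
      (𝓝 (q d (WeakDual.toStrongDual φ))) := q_tendsto d (1 + C + C) hgR hgx
  let r : ℕ → ℝ := fun n => max 1 (Real.sqrt (t ^ 2 + q d (WeakDual.toStrongDual (g n))))
  have hr1 : ∀ n, 1 ≤ r n := fun n => le_max_left _ _
  have hr : Tendsto r atTop (𝓝 1) := by
    have h1 : Tendsto r atTop
        (𝓝 (max 1 (Real.sqrt (t ^ 2 + q d (WeakDual.toStrongDual φ))))) := by
      refine tendsto_const_nhds.max ?_
      exact (Real.continuous_sqrt.tendsto _).comp (hgq.const_add _)
    have h2 : max 1 (Real.sqrt (t ^ 2 + q d (WeakDual.toStrongDual φ))) = 1 := by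
      apply max_eq_left
      rw [Real.sqrt_le_one]
      exact hq
    rwa [h2] at h1
  have hrq : ∀ n, t ^ 2 + q d (WeakDual.toStrongDual (g n)) ≤ (r n) ^ 2 := by
    intro n
    have h0 : 0 ≤ t ^ 2 + q d (WeakDual.toStrongDual (g n)) := by
      have := q_nonneg d (WeakDual.toStrongDual (g n))
      positivity
    have h1 : Real.sqrt (t ^ 2 + q d (WeakDual.toStrongDual (g n))) ≤ r n := le_max_right _ _
    calc t ^ 2 + q d (WeakDual.toStrongDual (g n))
        = (Real.sqrt (t ^ 2 + q d (WeakDual.toStrongDual (g n)))) ^ 2 := (Real.sq_sqrt h0).symm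
      _ ≤ (r n) ^ 2 := by gcongr
  refine ⟨F, fun n => (1 / r n) • g n, ?_, ?_, ?_⟩
  · intro n
    exact mem_USet_of ht.le ⟨b, u n, k', hb, huK n, hk', rfl⟩ rfl (hr1 n) ht1 (hrq n)
  · intro x
    have h1 : Tendsto (fun n => (1 / r n) * g n x) atTop (𝓝 ((1 / 1) * φ x)) :=
      (tendsto_const_nhds.div hr one_ne_zero).mul (hgx x)
    rw [div_one, one_mul] at h1
    exact h1
  · intro hcon
    have h1 : Tendsto (fun n => r n * F (WeakDual.toStrongDual ((1 / r n) • g n))) atTop
        (𝓝 (1 * F (WeakDual.toStrongDual φ))) := hr.mul hcon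
    rw [one_mul] at h1
    have h2 : ∀ n, r n * F (WeakDual.toStrongDual ((1 / r n) • g n))
        = F (WeakDual.toStrongDual (g n)) := by
      intro n
      have h3 : r n ≠ 0 := by
        have := hr1 n
        positivity
      rw [map_smul, map_smul, smul_eq_mul]
      field_simp
    simp_rw [h2] at h1
    rw [Metric.tendsto_atTop] at h1
    obtain ⟨N, hN⟩ := h1 (t * ε) (by positivity)
    have h3 := hN N le_rfl
    rw [Real.dist_eq] at h3
    have h4 : F (WeakDual.toStrongDual (g N)) - F (WeakDual.toStrongDual φ)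
        = t * (F (WeakDual.toStrongDual (u N)) - F (WeakDual.toStrongDual k)) := by
      rw [hφe]
      simp only [g, map_smul, map_sub, map_add, smul_eq_mul]
      ring
    rw [h4, abs_mul, abs_of_pos ht] at h3
    have h5 := huF N
    have h6 : t * ε ≤ t * |F (WeakDual.toStrongDual (u N)) - F (WeakDual.toStrongDual k)| := by
      gcongr
    linarith

/-- **Theorem** (sufficiency): if some weak*-compact convex set has no weak*-support point of
weak*-to-weak continuity then the space has a Gateaux smooth nowhere strongly Gateaux smooth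
norm. -/
theorem classC_of_noSupportPC [CompleteSpace X] [TopologicalSpace.SeparableSpace X]
    (hX : HasNoSupportPCSet X) : ClassC X := by
  classical
  obtain ⟨K, hne, hc, hK, hPC⟩ := hX
  let d : ℕ → X := TopologicalSpace.denseSeq X
  have hd : DenseRange d := TopologicalSpace.denseRange_denseSeq X
  obtain ⟨R, hR0, hR⟩ := USet_bounded (d := d) hK
  obtain ⟨C, hC0, hC⟩ := K_bounded hK
  let E : EqNorm X :=
    { N := newN d K
      add_le := newN_add hK hne
      smul_eq := newN_smul hK hne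
      lower := newN_lower hK hne
      R := R
      upper := by
        intro x
        obtain ⟨φ, hφ, h⟩ := exists_newN (d := d) hK hne x
        rw [← h]
        refine (le_abs_self _).trans ?_
        exact ((WeakDual.toStrongDual φ).le_opNorm x).trans
          (mul_le_mul_of_nonneg_right (hR φ hφ) (norm_nonneg _)) }
  let e : X ≃L[ℝ] Sp E := Sp.equiv E
  have hnorm : ∀ y : Sp E, ‖y‖ = newN d K (e.symm y) := fun y => rfl
  have hx0 : ∀ x : Sp E, ‖x‖ = 1 → e.symm x ≠ 0 := by
    intro x hx h0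
    have : x = 0 := by
      have := congrArg e h0
      simpa using this
    rw [this, norm_zero] at hx
    exact zero_ne_one hx
  have hderiv : ∀ x : Sp E, ‖x‖ = 1 → ∀ φ ∈ USet d K, φ (e.symm x) = newN d K (e.symm x) →
      IsGateauxDerivAt x ((WeakDual.toStrongDual φ).comp (e.symm : Sp E →L[ℝ] X)) := by
    intro x hx φ hφ hφx h
    exact newN_deriv hc hne hd hK (hx0 x hx) hφ hφx (e.symm h)
  refine ⟨Sp E, inferInstance, inferInstance, ⟨e⟩, ?_, ?_⟩
  · intro x hx
    obtain ⟨φ, hφ, hφx⟩ := exists_newN (d := d) hK hne (e.symm x)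
    exact ⟨_, hderiv x hx φ hφ hφx⟩
  · intro x hx hs
    obtain ⟨φ, hφ, hφx⟩ := exists_newN (d := d) hK hne (e.symm x)
    have hφ1 : φ (e.symm x) = 1 := by rw [hφx, ← hnorm, hx]
    have hφ0 : φ ≠ 0 := by
      intro h0
      rw [h0] at hφ1
      have : (0 : WeakDual ℝ X) (e.symm x) = 0 := rfl
      rw [this] at hφ1
      exact zero_ne_one hφ1
    obtain ⟨F, g, hgU, hgx, hgF⟩ : ∃ F : (X →L[ℝ] ℝ) →L[ℝ] ℝ, ∃ h : ℕ → WeakDual ℝ X,
        (∀ n, h n ∈ USet d K) ∧ (∀ x, Tendsto (fun n => h n x) atTop (𝓝 (φ x))) ∧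
        ¬ Tendsto (fun n => F (WeakDual.toStrongDual (h n))) atTop
          (𝓝 (F (WeakDual.toStrongDual φ))) := by
      obtain ⟨t, ht0, ht1, ⟨_, ⟨b, k, k', hb, hk, hk', rfl⟩, hφe⟩, hq⟩ := id hφ
      have htpos : 0 < t := by
        rcases ht0.eq_or_lt with h | h
        · exfalso
          apply hφ0
          rw [hφe, ← h, zero_smul]
        · exact h
      have hsup := support_of_max (d := d) hc hK hne (hx0 x hx) htpos hb hk hk'
        (by rw [← hφe]; exact hq) (by rw [← hφe]; exact hφx)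
      have h := approx_of_dec (d := d) hd hC htpos ht1 hb hk hk'
        (by rw [← hφe]; exact hq) (hPC k hk hsup)
      rw [← hφe] at h
      exact h
    apply hgF
    let T : (Sp E →L[ℝ] ℝ) →L[ℝ] (X →L[ℝ] ℝ) :=
      (ContinuousLinearMap.compL ℝ X (Sp E) ℝ).flip (e : X →L[ℝ] Sp E)
    have hT : ∀ f : WeakDual ℝ X,
        T ((WeakDual.toStrongDual f).comp (e.symm : Sp E →L[ℝ] X)) = WeakDual.toStrongDual f := by
      intro f
      ext y
      simp [T]
    have h1 := sg_ball hx hs (hderiv x hx φ hφ hφx)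
      (f := fun n => (WeakDual.toStrongDual (g n)).comp (e.symm : Sp E →L[ℝ] X))
      (fun n y => by
        rw [hnorm]
        exact le_newN hK (hgU n) (e.symm y))
      (by
        have := hgx (e.symm x)
        rw [hφ1] at this
        exact this)
      (F.comp T)
    simp only [ContinuousLinearMap.comp_apply] at h1
    simp only [hT] at h1
    exact h1

/-! ### necessity -/

/-- Smulyan: functionals in the unit ball which almost norm `x` converge weak* to the derivative -/
lemma smulyan {Y : Type u} [NormedAddCommGroup Y] [NormedSpace ℝ Y] {x : Y} {φ : Y →L[ℝ] ℝ}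
    (hφ : IsGateauxDerivAt x φ) {f : ℕ → (Y →L[ℝ] ℝ)} (hf : ∀ n y, f n y ≤ ‖y‖)
    (hfx : Tendsto (fun n => f n x) atTop (𝓝 ‖x‖)) (h : Y) :
    Tendsto (fun n => f n h) atTop (𝓝 (φ h)) := by
  have key : ∀ h : Y, ∀ b, φ h < b → ∀ᶠ n in atTop, f n h < b := by
    intro h b hb
    have h1 : Tendsto (fun t : ℝ => (‖x + t • h‖ - ‖x‖) / t) (𝓝[>] 0) (𝓝 (φ h)) :=
      (hφ h).mono_left (nhdsWithin_mono _ (fun t ht => ne_of_gt ht))
    have h2 : ∀ᶠ t in 𝓝[>] (0 : ℝ), (‖x + t • h‖ - ‖x‖) / t < b :=
      h1.eventually (Iio_mem_nhds hb)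
    obtain ⟨t, ht1, ht2⟩ := (h2.and self_mem_nhdsWithin).exists
    have htpos : 0 < t := ht2
    have h3 : Tendsto (fun n => (‖x + t • h‖ - f n x) / t) atTop
        (𝓝 ((‖x + t • h‖ - ‖x‖) / t)) := (hfx.const_sub _).div_const t
    filter_upwards [h3.eventually (Iio_mem_nhds ht1)] with n hn
    have h4 : f n (x + t • h) ≤ ‖x + t • h‖ := hf n _
    rw [map_add, map_smul, smul_eq_mul] at h4
    have h5 : f n h ≤ (‖x + t • h‖ - f n x) / t := by
      rw [le_div_iff₀ htpos]; linarith
    exact h5.trans_lt hn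
  rw [tendsto_order]
  constructor
  · intro a ha
    have h1 : φ (-h) < -a := by rw [map_neg]; linarith
    filter_upwards [key (-h) (-a) h1] with n hn
    rw [map_neg] at hn
    linarith
  · intro b hb
    exact key h b hb

/-- **Theorem** (necessity) -/
theorem noSupportPC_of_classC [TopologicalSpace.SeparableSpace X]
    (hX : ClassC X) : HasNoSupportPCSet X := by
  classical
  obtain ⟨Y, i1, i2, ⟨e⟩, hG, hN⟩ := hX
  let K : Set (WeakDual ℝ X) := {f | ∀ x, f x ≤ ‖e x‖}
  have hKconv : Convex ℝ K := by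
    intro f hf g hg s t hs ht hst x
    change s * f x + t * g x ≤ ‖e x‖
    have h1 := mul_le_mul_of_nonneg_left (hf x) hs
    have h2 := mul_le_mul_of_nonneg_left (hg x) ht
    have h3 : s * ‖e x‖ + t * ‖e x‖ = ‖e x‖ := by rw [← add_mul, hst, one_mul]
    linarith
  have hKclosed : IsClosed K := by
    have : K = ⋂ x, {f : WeakDual ℝ X | f x ≤ ‖e x‖} := by
      ext f; simp [K]
    rw [this]
    refine isClosed_iInter fun x => ?_
    exact isClosed_le (WeakDual.eval_continuous (𝕜 := ℝ) (E := X) x) continuous_const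
  have hKb : ∀ f ∈ K, ‖WeakDual.toStrongDual f‖ ≤ ‖(e : X →L[ℝ] Y)‖ := by
    intro f hf
    refine ContinuousLinearMap.opNorm_le_bound _ (norm_nonneg _) fun x => ?_
    have h1 : f x ≤ ‖e x‖ := hf x
    have h2 : f (-x) ≤ ‖e (-x)‖ := hf (-x)
    have h3 : f (-x) = - f x := map_neg f x
    rw [h3, map_neg, norm_neg] at h2
    have h4 : ‖e x‖ ≤ ‖(e : X →L[ℝ] Y)‖ * ‖x‖ := (e : X →L[ℝ] Y).le_opNorm x
    have h5 : ‖(WeakDual.toStrongDual f) x‖ = |f x| := rfl
    rw [h5, abs_le]
    constructor <;> linarith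
  have hK : IsCompact K := by
    let S : Set (WeakDual ℝ X) :=
      WeakDual.toStrongDual ⁻¹' Metric.closedBall (0 : StrongDual ℝ X) ‖(e : X →L[ℝ] Y)‖
    have hS : IsCompact S := WeakDual.isCompact_closedBall (𝕜 := ℝ) (E := X) 0 _
    refine hS.of_isClosed_subset hKclosed ?_
    intro f hf
    simp only [S, mem_preimage, Metric.mem_closedBall, dist_zero_right]
    exact hKb f hf
  refine ⟨K, ⟨0, fun x => norm_nonneg _⟩, hKconv, hK, ?_⟩
  rintro f hf ⟨x, hx, hsup⟩
  by_contra hcon
  unfold NotPC at hcon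
  push Not at hcon
  have hex : e x ≠ 0 := by
    intro h0
    exact hx (by simpa using h0)
  have hexpos : 0 < ‖e x‖ := norm_pos_iff.2 hex
  set y : Y := ‖e x‖⁻¹ • e x with hy
  have hy1 : ‖y‖ = 1 := by
    rw [hy, norm_smul, norm_inv, norm_norm]
    exact inv_mul_cancel₀ hexpos.ne'
  -- the value at x
  have hfx : f x = ‖e x‖ := by
    apply le_antisymm (hf x)
    obtain ⟨g, hg1, hg2⟩ := exists_dual_vector'' ℝ (e x)
    have hgK : StrongDual.toWeakDual (g.comp (e : X →L[ℝ] Y)) ∈ K := by
      intro z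
      change g (e z) ≤ ‖e z‖
      have h1 := g.le_opNorm (e z)
      have h2 : g (e z) ≤ ‖g (e z)‖ := le_abs_self _
      have h3 : ‖g‖ * ‖e z‖ ≤ 1 * ‖e z‖ := by gcongr
      linarith
    have h1 := hsup _ hgK
    have h2 : (StrongDual.toWeakDual (g.comp (e : X →L[ℝ] Y))) x = ‖e x‖ := by
      change g (e x) = ‖e x‖
      rw [hg2]; rfl
    rw [h2] at h1
    exact h1
  obtain ⟨φ, hφ⟩ := hG y hy1
  -- `f ∘ e.symm` is the derivative
  have hfle : ∀ z : Y, (WeakDual.toStrongDual f).comp (e.symm : Y →L[ℝ] X) z ≤ ‖z‖ := by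
    intro z
    have := hf (e.symm z)
    rw [ContinuousLinearEquiv.apply_symm_apply] at this
    exact this
  have hfy : (WeakDual.toStrongDual f).comp (e.symm : Y →L[ℝ] X) y = 1 := by
    rw [hy, map_smul, smul_eq_mul]
    have : ((WeakDual.toStrongDual f).comp (e.symm : Y →L[ℝ] X)) (e x) = f x := by
      change f (e.symm (e x)) = f x
      rw [ContinuousLinearEquiv.symm_apply_apply]
    rw [this, hfx]
    exact inv_mul_cancel₀ hexpos.ne'
  have hφf : φ = (WeakDual.toStrongDual f).comp (e.symm : Y →L[ℝ] X) := by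
    ext z
    have h1 := smulyan hφ (f := fun _ => (WeakDual.toStrongDual f).comp (e.symm : Y →L[ℝ] X))
      (fun _ z => hfle z) (by rw [hy1]; simp only [hfy]; exact tendsto_const_nhds) z
    exact tendsto_nhds_unique h1 tendsto_const_nhds |>.symm ▸ rfl
  apply hN y hy1
  refine ⟨φ, hφ, ?_⟩
  intro g hg hgy F'
  have hgle : ∀ n z, g n z ≤ ‖z‖ := by
    intro n z
    have h1 := (g n).le_opNorm z
    rw [hg n, one_mul] at h1
    exact (le_abs_self _).trans h1
  let T : (X →L[ℝ] ℝ) →L[ℝ] (Y →L[ℝ] ℝ) :=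
    (ContinuousLinearMap.compL ℝ Y X ℝ).flip (e.symm : Y →L[ℝ] X)
  let γ : ℕ → WeakDual ℝ X := fun n => StrongDual.toWeakDual ((g n).comp (e : X →L[ℝ] Y))
  have hγK : ∀ n, γ n ∈ K := fun n z => hgle n (e z)
  have hd : DenseRange (TopologicalSpace.denseSeq X) := TopologicalSpace.denseRange_denseSeq X
  have hγ : Tendsto γ atTop (𝓝 f) := by
    refine tendsto_weakDual hK hd hγK fun i => ?_
    have h1 := smulyan hφ (f := g) hgle (by rw [hy1]; exact hgy)
      (e (TopologicalSpace.denseSeq X i))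
    rw [hφf] at h1
    have h2 : ((WeakDual.toStrongDual f).comp (e.symm : Y →L[ℝ] X))
        (e (TopologicalSpace.denseSeq X i)) = f (TopologicalSpace.denseSeq X i) := by
      change f (e.symm (e _)) = f _
      rw [ContinuousLinearEquiv.symm_apply_apply]
    rw [h2] at h1
    exact h1
  have hγ' : Tendsto γ atTop (𝓝[K] f) :=
    tendsto_nhdsWithin_iff.2 ⟨hγ, Eventually.of_forall hγK⟩
  have h1 := Filter.Tendsto.comp (x := atTop) (y := 𝓝[K] f) (hcon (F'.comp T)) hγ'
  have h2 : ∀ n, T (WeakDual.toStrongDual (γ n)) = g n := by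
    intro n
    ext z
    change g n (e (e.symm z)) = g n z
    rw [ContinuousLinearEquiv.apply_symm_apply]
  have h3 : T (WeakDual.toStrongDual f) = φ := by
    rw [hφf]
    rfl
  have h4 : Tendsto (fun n => F' (T (WeakDual.toStrongDual (γ n)))) atTop
      (𝓝 (F' (T (WeakDual.toStrongDual f)))) := h1
  simp only [h2, h3] at h4
  exact h4

theorem classC_iff [CompleteSpace X] [TopologicalSpace.SeparableSpace X] :
    ClassC X ↔ HasNoSupportPCSet X :=
  ⟨noSupportPC_of_classC, classC_of_noSupportPC⟩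

end Helper67.SG
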