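import Pool.Agent.Helper67.SG.Lim

open Filter Topology Set

noncomputable section

namespace Helper67.SG

universe u

variable {X : Type u} [NormedAddCommGroup X] [NormedSpace ℝ X]

/-- the weights -/
def wt (d : ℕ → X) (i : ℕ) : ℝ := (1 / 2) ^ i / (1 + ‖d i‖) ^ 2

lemma wt_pos (d : ℕ → X) (i : ℕ) : 0 < wt d i := by
  unfold wt; positivity

/-- the square of a weak*-continuous Hilbertian norm -/
def q (d : ℕ → X) (f : X →L[ℝ] ℝ) : ℝ := ∑' i, wt d i * (f (d i)) ^ 2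

lemma term_le (d : ℕ → X) (f : X →L[ℝ] ℝ) (i : ℕ) :
    wt d i * (f (d i)) ^ 2 ≤ (1 / 2) ^ i * ‖f‖ ^ 2 := by
  unfold wt
  rw [div_mul_eq_mul_div, div_le_iff₀ (by positivity), mul_assoc]
  have h1 : |f (d i)| ≤ ‖f‖ * (1 + ‖d i‖) := by
    calc |f (d i)| = ‖f (d i)‖ := rfl
      _ ≤ ‖f‖ * ‖d i‖ := f.le_opNorm _
      _ ≤ ‖f‖ * (1 + ‖d i‖) := by gcongr; linarith
  have h2 : (f (d i)) ^ 2 ≤ (‖f‖ * (1 + ‖d i‖)) ^ 2 := by
    rw [← sq_abs]
    gcongr
  rw [mul_pow] at h2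
  gcongr

lemma term_nonneg (d : ℕ → X) (f : X →L[ℝ] ℝ) (i : ℕ) : 0 ≤ wt d i * (f (d i)) ^ 2 :=
  mul_nonneg (wt_pos d i).le (sq_nonneg _)

lemma summable_geo (M : ℝ) : Summable fun i : ℕ => (1 / 2 : ℝ) ^ i * M :=
  (summable_geometric_of_lt_one (by norm_num) (by norm_num)).mul_right M

lemma summable_q (d : ℕ → X) (f : X →L[ℝ] ℝ) : Summable fun i => wt d i * (f (d i)) ^ 2 :=
  Summable.of_nonneg_of_le (term_nonneg d f) (term_le d f) (summable_geo _)

lemma q_nonneg (d : ℕ → X) (f : X →L[ℝ] ℝ) : 0 ≤ q d f := tsum_nonneg (term_nonneg d f)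

lemma q_le (d : ℕ → X) (f : X →L[ℝ] ℝ) : q d f ≤ 2 * ‖f‖ ^ 2 := by
  have h1 : q d f ≤ ∑' i : ℕ, (1 / 2 : ℝ) ^ i * ‖f‖ ^ 2 :=
    (summable_q d f).tsum_le_tsum (term_le d f) (summable_geo _)
  rw [tsum_mul_right, tsum_geometric_of_lt_one (by norm_num) (by norm_num)] at h1
  norm_num at h1
  linarith

lemma q_smul (d : ℕ → X) (c : ℝ) (f : X →L[ℝ] ℝ) : q d (c • f) = c ^ 2 * q d f := by
  unfold q
  rw [← tsum_mul_left]
  congr 1
  ext i
  simp only [ContinuousLinearMap.smul_apply, smul_eq_mul]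
  ring

lemma q_neg (d : ℕ → X) (f : X →L[ℝ] ℝ) : q d (-f) = q d f := by
  unfold q
  congr 1
  ext i
  have : (-f) (d i) = - f (d i) := rfl
  rw [this, neg_sq]

lemma q_mid (d : ℕ → X) (f g : X →L[ℝ] ℝ) :
    q d ((1 / 2 : ℝ) • (f + g)) = (1 / 2) * q d f + (1 / 2) * q d g - (1 / 4) * q d (f - g) := by
  unfold q
  rw [← tsum_mul_left, ← tsum_mul_left, ← tsum_mul_left,
    ← ((summable_q d f).mul_left _).tsum_add ((summable_q d g).mul_left _),
    ← (((summable_q d f).mul_left _).add ((summable_q d g).mul_left _)).tsum_sub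
      ((summable_q d (f - g)).mul_left _)]
  congr 1
  ext i
  simp only [ContinuousLinearMap.smul_apply, smul_eq_mul, ContinuousLinearMap.add_apply,
    ContinuousLinearMap.sub_apply]
  ring

lemma q_pos (d : ℕ → X) (hd : DenseRange d) {f : X →L[ℝ] ℝ} (hf : f ≠ 0) : 0 < q d f := by
  by_contra hcon
  have h0 : q d f = 0 := le_antisymm (not_lt.1 hcon) (q_nonneg d f)
  apply hf
  have h1 : ∀ i, f (d i) = 0 := by
    intro i
    have h2 : wt d i * (f (d i)) ^ 2 ≤ q d f :=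
      (summable_q d f).le_tsum i (fun j _ => term_nonneg d f j)
    have h3 := term_nonneg d f i
    have h4 : wt d i * (f (d i)) ^ 2 = 0 := by linarith
    have h5 := (mul_eq_zero.1 h4).resolve_left (wt_pos d i).ne'
    exact pow_eq_zero_iff (two_ne_zero) |>.1 h5
  have h2 : (f : X → ℝ) = (0 : X →L[ℝ] ℝ) := by
    refine hd.equalizer f.continuous (0 : X →L[ℝ] ℝ).continuous ?_
    funext i
    simp [h1 i]
  exact DFunLike.coe_injective h2

lemma q_tendsto (d : ℕ → X) {f : X →L[ℝ] ℝ} {g : ℕ → (X →L[ℝ] ℝ)} (R : ℝ)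
    (hR : ∀ n, ‖g n‖ ≤ R) (h : ∀ x, Tendsto (fun n => g n x) atTop (𝓝 (f x))) :
    Tendsto (fun n => q d (g n)) atTop (𝓝 (q d f)) := by
  unfold q
  have hR0 : 0 ≤ R := (norm_nonneg _).trans (hR 0)
  refine tendsto_tsum_of_dominated_convergence (summable_geo (R ^ 2)) ?_ ?_
  · intro i
    exact ((h (d i)).pow 2).const_mul _
  · refine Eventually.of_forall fun n i => ?_
    rw [Real.norm_of_nonneg (term_nonneg d (g n) i)]
    refine (term_le d (g n) i).trans ?_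
    have := hR n
    gcongr

/-- the basic weak*-compact convex symmetric set -/
def BSet (K : Set (WeakDual ℝ X)) : Set (WeakDual ℝ X) :=
  {f | ∃ b k k' : WeakDual ℝ X, ‖WeakDual.toStrongDual b‖ ≤ 1 ∧ k ∈ K ∧ k' ∈ K ∧ f = b + k - k'}

/-- the dual unit ball of the new norm -/
def USet (d : ℕ → X) (K : Set (WeakDual ℝ X)) : Set (WeakDual ℝ X) :=
  {f | ∃ t : ℝ, 0 ≤ t ∧ t ≤ 1 ∧ (∃ b ∈ BSet K, f = t • b) ∧
    t ^ 2 + q d (WeakDual.toStrongDual f) ≤ 1}

variable {d : ℕ → X} {K : Set (WeakDual ℝ X)}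

lemma isCompact_BSet (hK : IsCompact K) : IsCompact (BSet K) := by
  let S : Set (WeakDual ℝ X) :=
    WeakDual.toStrongDual ⁻¹' Metric.closedBall (0 : StrongDual ℝ X) 1
  have hS : IsCompact S := WeakDual.isCompact_closedBall (𝕜 := ℝ) (E := X) 0 1
  have h1 : BSet K = (fun p : WeakDual ℝ X × WeakDual ℝ X × WeakDual ℝ X =>
      p.1 + p.2.1 - p.2.2) '' (S ×ˢ K ×ˢ K) := by
    ext f
    constructor
    · rintro ⟨b, k, k', hb, hk, hk', rfl⟩
      refine ⟨(b, k, k'), ⟨?_, hk, hk'⟩, rfl⟩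
      simpa [S, mem_preimage, Metric.mem_closedBall, dist_zero_right] using hb
    · rintro ⟨⟨b, k, k'⟩, ⟨hb, hk, hk'⟩, rfl⟩
      refine ⟨b, k, k', ?_, hk, hk', rfl⟩
      simpa [S, mem_preimage, Metric.mem_closedBall, dist_zero_right] using hb
  rw [h1]
  refine (hS.prod (hK.prod hK)).image ?_
  fun_prop

lemma ball_subset_BSet (hne : K.Nonempty) {f : WeakDual ℝ X}
    (hf : ‖WeakDual.toStrongDual f‖ ≤ 1) : f ∈ BSet K := by
  obtain ⟨k, hk⟩ := hne
  exact ⟨f, k, k, hf, hk, hk, by simp⟩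

lemma zero_mem_BSet (hne : K.Nonempty) : (0 : WeakDual ℝ X) ∈ BSet K :=
  ball_subset_BSet hne (by simp)

lemma neg_mem_BSet {f : WeakDual ℝ X} (hf : f ∈ BSet K) : -f ∈ BSet K := by
  obtain ⟨b, k, k', hb, hk, hk', rfl⟩ := hf
  refine ⟨-b, k', k, ?_, hk', hk, by abel⟩
  rw [map_neg, norm_neg]
  exact hb

lemma convex_BSet (hc : Convex ℝ K) : Convex ℝ (BSet K) := by
  rintro _ ⟨b, k, k', hb, hk, hk', rfl⟩ _ ⟨c, l, l', hcn, hl, hl', rfl⟩ s t hs ht hst
  refine ⟨s • b + t • c, s • k + t • l, s • k' + t • l', ?_, hc hk hl hs ht hst,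
    hc hk' hl' hs ht hst, ?_⟩
  · rw [map_add, map_smul, map_smul]
    refine (norm_add_le _ _).trans ?_
    rw [norm_smul, norm_smul, Real.norm_of_nonneg hs, Real.norm_of_nonneg ht]
    nlinarith
  · simp only [smul_add, smul_sub]
    abel

lemma isCompact_USet (hK : IsCompact K) : IsCompact (USet d K) := by
  let P : Set (ℝ × WeakDual ℝ X) := (Icc (0 : ℝ) 1 ×ˢ BSet K) ∩
    ⋂ n : ℕ, {p | p.1 ^ 2 + ∑ i ∈ Finset.range n, wt d i * ((p.1 • p.2 : WeakDual ℝ X) (d i)) ^ 2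
      ≤ 1}
  have hP : IsCompact P := by
    refine (isCompact_Icc.prod (isCompact_BSet hK)).inter_right ?_
    refine isClosed_iInter fun n => ?_
    refine isClosed_le ?_ continuous_const
    refine (continuous_fst.pow 2).add (continuous_finset_sum _ fun i _ => ?_)
    refine continuous_const.mul (Continuous.pow ?_ 2)
    exact (WeakDual.eval_continuous (𝕜 := ℝ) (E := X) (d i)).comp
      (continuous_fst.smul continuous_snd)
  have h1 : USet d K = (fun p : ℝ × WeakDual ℝ X => p.1 • p.2) '' P := by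
    ext f
    constructor
    · rintro ⟨t, ht0, ht1, ⟨b, hb, rfl⟩, hq⟩
      refine ⟨(t, b), ⟨⟨⟨ht0, ht1⟩, hb⟩, mem_iInter.2 fun n => ?_⟩, rfl⟩
      have h2 : ∑ i ∈ Finset.range n, wt d i * ((t • b : WeakDual ℝ X) (d i)) ^ 2
          ≤ q d (WeakDual.toStrongDual (t • b)) :=
        (summable_q d (WeakDual.toStrongDual (t • b))).sum_le_tsum _
          (fun i _ => term_nonneg d _ i)
      simp only [mem_setOf_eq]
      linarith
    · rintro ⟨⟨t, b⟩, ⟨⟨⟨ht0, ht1⟩, hb⟩, hn⟩, rfl⟩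
      refine ⟨t, ht0, ht1, ⟨b, hb, rfl⟩, ?_⟩
      have h2 : q d (WeakDual.toStrongDual (t • b)) ≤ 1 - t ^ 2 := by
        refine Real.tsum_le_of_sum_range_le (fun i => term_nonneg d _ i) ?_
        intro n
        have h3 := mem_iInter.1 hn n
        simp only [mem_setOf_eq] at h3
        have h4 : ∑ i ∈ Finset.range n, wt d i * ((WeakDual.toStrongDual (t • b)) (d i)) ^ 2
          = ∑ i ∈ Finset.range n, wt d i * ((t • b : WeakDual ℝ X) (d i)) ^ 2 := rfl
        rw [h4]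
        linarith
      linarith
  rw [h1]
  exact hP.image (continuous_fst.smul continuous_snd)

lemma half_ball_subset_USet (hne : K.Nonempty) {f : WeakDual ℝ X}
    (hf : ‖WeakDual.toStrongDual f‖ ≤ 1 / 2) : f ∈ USet d K := by
  refine ⟨1 / 2, by norm_num, by norm_num, ⟨(2 : ℝ) • f, ?_, ?_⟩, ?_⟩
  · refine ball_subset_BSet hne ?_
    rw [map_smul, norm_smul]
    norm_num
    linarith
  · rw [smul_smul]; norm_num
  · have := q_le d (WeakDual.toStrongDual f)
    have h0 := norm_nonneg (WeakDual.toStrongDual f)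
    nlinarith

lemma neg_mem_USet {f : WeakDual ℝ X} (hf : f ∈ USet d K) : -f ∈ USet d K := by
  obtain ⟨t, ht0, ht1, ⟨b, hb, rfl⟩, hq⟩ := hf
  refine ⟨t, ht0, ht1, ⟨-b, neg_mem_BSet hb, by rw [smul_neg]⟩, ?_⟩
  rw [map_neg, q_neg]
  exact hq

/-- scaling into the set -/
lemma mem_USet_of {f : WeakDual ℝ X} {t : ℝ} (ht0 : 0 ≤ t) {b : WeakDual ℝ X} (hb : b ∈ BSet K)
    (hf : f = t • b) {r : ℝ} (hr : 1 ≤ r) (ht : t ≤ 1)
    (hq : t ^ 2 + q d (WeakDual.toStrongDual f) ≤ r ^ 2) : (1 / r) • f ∈ USet d K := by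
  have hr0 : 0 < r := by linarith
  refine ⟨t / r, by positivity, ?_, ⟨b, hb, ?_⟩, ?_⟩
  · rw [div_le_one hr0]; linarith
  · rw [hf, smul_smul]; congr 1; ring
  · rw [map_smul, q_smul]
    have e : (t / r) ^ 2 + (1 / r) ^ 2 * q d (WeakDual.toStrongDual f)
        = (t ^ 2 + q d (WeakDual.toStrongDual f)) / r ^ 2 := by field_simp
    rw [e, div_le_one (by positivity)]
    exact hq

/-- strict convexity of the set -/
lemma strict_USet (hc : Convex ℝ K) (hne : K.Nonempty) (hd : DenseRange d)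
    {f g : WeakDual ℝ X} (hf : f ∈ USet d K) (hg : g ∈ USet d K) (hfg : f ≠ g) :
    ∃ δ : ℝ, 0 < δ ∧ (1 + δ) • ((1 / 2 : ℝ) • (f + g)) ∈ USet d K := by
  obtain ⟨t, ht0, ht1, ⟨b, hb, hfb⟩, hqf⟩ := hf
  obtain ⟨s, hs0, hs1, ⟨c, hcB, hgc⟩, hqg⟩ := hg
  have hqpos : 0 < q d (WeakDual.toStrongDual f - WeakDual.toStrongDual g) := by
    refine q_pos d hd ?_
    intro h0
    apply hfg
    rw [← WeakDual.toStrongDual_inj]
    exact sub_eq_zero.1 h0
  set κ := q d (WeakDual.toStrongDual f - WeakDual.toStrongDual g) with hκ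
  let m : WeakDual ℝ X := (1 / 2 : ℝ) • (f + g)
  let τ : ℝ := (t + s) / 2
  have hmq : q d (WeakDual.toStrongDual m) = (1 / 2) * q d (WeakDual.toStrongDual f)
      + (1 / 2) * q d (WeakDual.toStrongDual g) - (1 / 4) * κ := by
    have : WeakDual.toStrongDual m
        = (1 / 2 : ℝ) • (WeakDual.toStrongDual f + WeakDual.toStrongDual g) := by
      simp only [m, map_smul, map_add]
    rw [this, q_mid]
  have hmb : ∃ b' ∈ BSet K, m = τ • b' := by
    by_cases hts : t + s = 0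
    · have ht : t = 0 := by linarith
      have hs : s = 0 := by linarith
      refine ⟨0, zero_mem_BSet hne, ?_⟩
      simp [m, hfb, hgc, ht, hs]
    · have hts' : 0 < t + s := lt_of_le_of_ne (by linarith) (Ne.symm hts)
      refine ⟨(t / (t + s)) • b + (s / (t + s)) • c, ?_, ?_⟩
      · exact convex_BSet hc hb hcB (by positivity) (by positivity) (by field_simp)
      · have e1 : τ * (t / (t + s)) = 1 / 2 * t := by
          simp only [τ]; field_simp
        have e2 : τ * (s / (t + s)) = 1 / 2 * s := by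
          simp only [τ]; field_simp
        rw [smul_add, smul_smul, smul_smul, e1, e2]
        simp only [m]
        rw [hfb, hgc, smul_add, smul_smul, smul_smul]
  obtain ⟨b', hb', hmb'⟩ := hmb
  have hτ0 : 0 ≤ τ := by simp only [τ]; linarith
  have hτ1 : τ ≤ 1 := by simp only [τ]; linarith
  have hsum : τ ^ 2 + q d (WeakDual.toStrongDual m) ≤ 1 - κ / 4 := by
    rw [hmq]
    have : τ ^ 2 ≤ (1 / 2) * t ^ 2 + (1 / 2) * s ^ 2 := by
      simp only [τ]; nlinarith [sq_nonneg (t - s)]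
    linarith
  have hq0 := q_nonneg d (WeakDual.toStrongDual m)
  -- choose δ
  have hκ1 : κ ≤ 4 := by nlinarith [sq_nonneg τ]
  refine ⟨κ / 16, by positivity, ?_⟩
  have hδ : (1 + κ / 16) ^ 2 * (1 - κ / 4) ≤ 1 := by nlinarith [sq_nonneg κ, mul_pos hqpos hqpos]
  have hδ0 : 0 < 1 + κ / 16 := by positivity
  have h5 : (1 + κ / 16) ^ 2 * (τ ^ 2 + q d (WeakDual.toStrongDual m)) ≤ 1 :=
    (mul_le_mul_of_nonneg_left hsum (by positivity)).trans hδ
  refine ⟨(1 + κ / 16) * τ, by positivity, ?_, ⟨b', hb', ?_⟩, ?_⟩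
  · have h6 : ((1 + κ / 16) * τ) ^ 2 ≤ 1 := by
      have : 0 ≤ (1 + κ / 16) ^ 2 * q d (WeakDual.toStrongDual m) := by positivity
      nlinarith
    have h7 : 0 ≤ (1 + κ / 16) * τ := by positivity
    nlinarith
  · change (1 + κ / 16) • m = _
    rw [hmb', smul_smul]
  · change _ + q d (WeakDual.toStrongDual ((1 + κ / 16) • m)) ≤ 1
    rw [map_smul, q_smul]
    nlinarith

end Helper67.SG
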