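import Pool.Agent.Helper67.SG.Supp

open Filter Topology Set

noncomputable section

namespace Helper67.SG

universe u

variable {X : Type u} [NormedAddCommGroup X] [NormedSpace ℝ X]

/-- functionals vanishing on the tail -/
def Ann (V : ℕ → Submodule ℝ X) (n : ℕ) : Submodule ℝ (X →L[ℝ] ℝ) where
  carrier := {g | ∀ i, n ≤ i → ∀ x ∈ V i, g x = 0}
  add_mem' := by
    intro g h hg hh i hi x hx
    change g x + h x = 0
    rw [hg i hi x hx, hh i hi x hx, add_zero]
  zero_mem' := by intro i _ x _; rfl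
  smul_mem' := by
    intro c g hg i hi x hx
    change c * g x = 0
    rw [hg i hi x hx, mul_zero]

lemma finite_Ann {V : ℕ → Submodule ℝ X} (hV : ∀ n, FiniteDimensional ℝ (V n))
    (hd : Dense ((⨆ n, V n : Submodule ℝ X) : Set X)) (n : ℕ) :
    FiniteDimensional ℝ (Ann V n) := by
  classical
  let W : Submodule ℝ X := ⨆ i : Fin n, V i
  have hW : FiniteDimensional ℝ W := by
    have : ∀ i : Fin n, FiniteDimensional ℝ (V i) := fun i => hV i
    infer_instance
  let L : Ann V n →ₗ[ℝ] (W →ₗ[ℝ] ℝ) :=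
    { toFun := fun g => (g.1 : X →ₗ[ℝ] ℝ).comp W.subtype
      map_add' := fun _ _ => rfl
      map_smul' := fun _ _ => rfl }
  have hL : Function.Injective L := by
    intro a b hab
    let g : X →L[ℝ] ℝ := a.1 - b.1
    have hg : g ∈ Ann V n := (Ann V n).sub_mem a.2 b.2
    have h1 : ∀ x ∈ W, g x = 0 := by
      intro x hx
      have h0 : a.1 x = b.1 x := congrArg (fun T => T ⟨x, hx⟩) hab
      change a.1 x - b.1 x = 0
      rw [h0, sub_self]
    have h2 : ∀ x ∈ (⨆ n, V n : Submodule ℝ X), g x = 0 := by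
      have h3 : (⨆ n, V n : Submodule ℝ X) ≤ LinearMap.ker (g : X →ₗ[ℝ] ℝ) := by
        refine iSup_le fun i x hx => ?_
        rw [LinearMap.mem_ker]
        by_cases hi : n ≤ i
        · exact hg i hi x hx
        · exact h1 x (Submodule.mem_iSup_of_mem (⟨i, by omega⟩ : Fin n) hx)
      intro x hx
      exact LinearMap.mem_ker.1 (h3 hx)
    have h4 : (g : X → ℝ) = (0 : X →L[ℝ] ℝ) := by
      refine Continuous.ext_on hd g.continuous (0 : X →L[ℝ] ℝ).continuous ?_
      intro x hx
      exact h2 x hx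
    have h5 : g = 0 := DFunLike.coe_injective h4
    exact Subtype.ext (sub_eq_zero.1 h5)
  exact FiniteDimensional.of_injective L hL

/-- a norming vector far out -/
lemma exists_block {V : ℕ → Submodule ℝ X} {f : X →L[ℝ] ℝ} {δ : ℝ} (hδ : 0 < δ) (n : ℕ)
    (hf : ∀ g ∈ Ann V n, δ ≤ ‖f - g‖) :
    ∃ u : X, ‖u‖ = 1 ∧ δ / 2 ≤ f u ∧ u ∈ (⨆ i, V (n + i) : Submodule ℝ X) := by
  classical
  by_contra hcon
  push Not at hcon
  let T : Submodule ℝ X := ⨆ i, V (n + i)
  have hb : ∀ u : T, ‖(f : X →ₗ[ℝ] ℝ).comp T.subtype u‖ ≤ (δ / 2) * ‖u‖ := by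
    intro u
    have key : ∀ v : X, v ∈ T → f v ≤ (δ / 2) * ‖v‖ := by
      intro v hv
      by_cases h0 : v = 0
      · rw [h0, map_zero, norm_zero, mul_zero]
      · have hpos : 0 < ‖v‖ := norm_pos_iff.2 h0
        by_contra hlt
        push Not at hlt
        have h1 : ‖‖v‖⁻¹ • v‖ = 1 := by
          rw [norm_smul, norm_inv, norm_norm]
          exact inv_mul_cancel₀ hpos.ne'
        have h2 : δ / 2 ≤ f (‖v‖⁻¹ • v) := by
          rw [map_smul, smul_eq_mul]
          have : δ / 2 = ‖v‖⁻¹ * ((δ / 2) * ‖v‖) := by field_simp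
          rw [this]
          exact mul_le_mul_of_nonneg_left hlt.le (by positivity)
        exact hcon _ h1 h2 (T.smul_mem _ hv)
    have h1 := key u.1 u.2
    have h2 := key (-u.1) (T.neg_mem u.2)
    rw [map_neg, norm_neg] at h2
    change |f u.1| ≤ (δ / 2) * ‖u.1‖
    rw [abs_le]
    constructor <;> linarith
  let f' : StrongDual ℝ T := ((f : X →ₗ[ℝ] ℝ).comp T.subtype).mkContinuous (δ / 2) hb
  obtain ⟨h, h1, h2⟩ := exists_extension_norm_eq T f'
  have hle : ‖h‖ ≤ δ / 2 := by
    rw [h2]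
    exact LinearMap.mkContinuous_norm_le _ (by positivity) _
  have hmem : f - h ∈ Ann V n := by
    intro i hi x hx
    have hxT : x ∈ T := by
      refine Submodule.mem_iSup_of_mem (i - n) ?_
      rw [Nat.add_sub_cancel' hi]
      exact hx
    have h3 := h1 ⟨x, hxT⟩
    have h4 : f' ⟨x, hxT⟩ = f x := rfl
    rw [h4] at h3
    change f x - h x = 0
    rw [h3]
    ring
  have h5 := hf _ hmem
  rw [sub_sub_cancel] at h5
  linarith

/-- the decomposition of a vector of the tail -/
lemma exists_dec {V : ℕ → Submodule ℝ X} (n : ℕ) {u : X}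
    (hu : u ∈ (⨆ i, V (n + i) : Submodule ℝ X)) :
    ∃ (s : Finset ℕ) (x : ℕ → X), (∀ i ∈ s, n ≤ i) ∧ (∀ i, x i ∈ V i) ∧ u = ∑ i ∈ s, x i := by
  classical
  refine Submodule.iSup_induction (fun i => V (n + i))
    (motive := fun u => ∃ (s : Finset ℕ) (x : ℕ → X), (∀ i ∈ s, n ≤ i) ∧ (∀ i, x i ∈ V i) ∧
      u = ∑ i ∈ s, x i) hu ?_ ?_ ?_
  · intro i v hv
    refine ⟨{n + i}, fun j => if h : j = n + i then v else 0, ?_, ?_, ?_⟩
    · intro j hj
      rw [Finset.mem_singleton] at hj
      omega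
    · intro j
      by_cases h : j = n + i
      · simp only [h, dif_pos]; exact hv
      · simp only [h, dif_neg, not_false_eq_true]; exact (V j).zero_mem
    · simp
  · exact ⟨∅, fun _ => 0, by simp, fun i => (V i).zero_mem, by simp⟩
  · rintro u v ⟨s, x, hs1, hs2, hs3⟩ ⟨t, y, ht1, ht2, ht3⟩
    refine ⟨s ∪ t, fun i => (if i ∈ s then x i else 0) + (if i ∈ t then y i else 0), ?_, ?_, ?_⟩
    · intro i hi
      rcases Finset.mem_union.1 hi with h | h
      · exact hs1 i h
      · exact ht1 i h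
    · intro i
      refine (V i).add_mem ?_ ?_
      · split_ifs
        · exact hs2 i
        · exact (V i).zero_mem
      · split_ifs
        · exact ht2 i
        · exact (V i).zero_mem
    · rw [Finset.sum_add_distrib, hs3, ht3]
      congr 1
      · rw [← Finset.sum_filter]
        congr 1
        ext i
        simp only [Finset.mem_filter, Finset.mem_union]
        tauto
      · rw [← Finset.sum_filter]
        congr 1
        ext i
        simp only [Finset.mem_filter, Finset.mem_union]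
        tauto

/-- blocks of an unconditional decomposition on which a functional is large span `ℓ¹` -/
lemma containsL1_of_blocks {V : ℕ → Submodule ℝ X} {C : ℝ}
    (hC : ∀ (s : Finset ℕ) (x : ℕ → X) (ε : ℕ → ℝ), (∀ n, x n ∈ V n) → (∀ n, |ε n| ≤ 1) →
      ‖∑ n ∈ s, ε n • x n‖ ≤ C * ‖∑ n ∈ s, x n‖)
    {f : X →L[ℝ] ℝ} {δ : ℝ} (hδ : 0 < δ)
    (h : ∀ n, ∃ u : X, ‖u‖ = 1 ∧ δ ≤ f u ∧ u ∈ (⨆ i, V (n + i) : Submodule ℝ X)) :
    ContainsL1 X := by
  classical
  have h' : ∀ n, ∃ (s : Finset ℕ) (x : ℕ → X), (∀ i ∈ s, n ≤ i) ∧ (∀ i, x i ∈ V i) ∧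
      ‖∑ i ∈ s, x i‖ = 1 ∧ δ ≤ f (∑ i ∈ s, x i) := by
    intro n
    obtain ⟨u, hu1, hu2, hu3⟩ := h n
    obtain ⟨s, x, hs, hx, rfl⟩ := exists_dec n hu3
    exact ⟨s, x, hs, hx, hu1, hu2⟩
  choose s x hs hx hn hf using h'
  -- choose successive blocks
  have hb : ∀ n, ∃ m, ∀ i ∈ s n, i < m := by
    intro n
    obtain ⟨b, hb⟩ := (s n).bddAbove
    exact ⟨b + 1, fun i hi => Nat.lt_succ_of_le (hb hi)⟩
  choose m hm using hb
  let p : ℕ → ℕ := fun k => Nat.rec 0 (fun _ q => max (m q) (q + 1)) k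
  have hp : ∀ k, p (k + 1) = max (m (p k)) (p k + 1) := fun k => rfl
  have hpm : StrictMono p := by
    refine strictMono_nat_of_lt_succ fun k => ?_
    rw [hp]
    exact lt_of_lt_of_le (Nat.lt_succ_self _) (le_max_right _ _)
  have hlt : ∀ k, ∀ i ∈ s (p k), i < p (k + 1) := by
    intro k i hi
    rw [hp]
    exact lt_of_lt_of_le (hm _ i hi) (le_max_left _ _)
  have hdisj : ∀ k l, k ≠ l → Disjoint (s (p k)) (s (p l)) := by
    have key : ∀ k l, k < l → Disjoint (s (p k)) (s (p l)) := by
      intro k l hkl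
      rw [Finset.disjoint_left]
      intro i hi hi'
      have h1 := hlt k i hi
      have h2 := hs (p l) i hi'
      have h3 : p (k + 1) ≤ p l := hpm.monotone hkl
      omega
    intro k l hkl
    rcases lt_or_gt_of_ne hkl with h | h
    · exact key k l h
    · exact (key l k h).symm
  let y : ℕ → X := fun k => ∑ i ∈ s (p k), x (p k) i
  have hy1 : ∀ k, ‖y k‖ = 1 := fun k => hn (p k)
  have hyf : ∀ k, δ ≤ f (y k) := fun k => hf (p k)
  -- block unconditionality
  have hblock : ∀ (S : Finset ℕ) (a : ℕ → ℝ), ‖∑ k ∈ S, |a k| • y k‖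
      ≤ C * ‖∑ k ∈ S, a k • y k‖ := by
    intro S a
    have hpd : (S : Set ℕ).PairwiseDisjoint (fun k => s (p k)) :=
      fun k _ l _ hkl => hdisj k l hkl
    let z : ℕ → X := fun i => ∑ k ∈ S, if i ∈ s (p k) then a k • x (p k) i else 0
    let ε : ℕ → ℝ := fun i => ∑ k ∈ S, if i ∈ s (p k) then SignType.sign (a k) else 0
    have hz : ∀ k ∈ S, ∀ i ∈ s (p k), z i = a k • x (p k) i := by
      intro k hk i hi
      simp only [z]
      rw [Finset.sum_eq_single k]
      · rw [if_pos hi]
      · intro l _ hlk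
        rw [if_neg]
        intro hi'
        exact (Finset.disjoint_left.1 (hdisj l k hlk)) hi' hi
      · intro h; exact absurd hk h
    have hε : ∀ k ∈ S, ∀ i ∈ s (p k), ε i = SignType.sign (a k) := by
      intro k hk i hi
      simp only [ε]
      rw [Finset.sum_eq_single k]
      · rw [if_pos hi]
      · intro l _ hlk
        rw [if_neg]
        intro hi'
        exact (Finset.disjoint_left.1 (hdisj l k hlk)) hi' hi
      · intro h; exact absurd hk h
    have hεle : ∀ i, |ε i| ≤ 1 := by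
      intro i
      by_cases hex : ∃ k ∈ S, i ∈ s (p k)
      · obtain ⟨k, hk, hi⟩ := hex
        rw [hε k hk i hi]
        rcases lt_trichotomy (a k) 0 with h | h | h
        · rw [sign_neg h]; simp
        · rw [h, sign_zero]; simp
        · rw [sign_pos h]; simp
      · push Not at hex
        have : ε i = 0 := by
          simp only [ε]
          refine Finset.sum_eq_zero fun k hk => ?_
          rw [if_neg (hex k hk)]
        rw [this]; simp
    have hzV : ∀ i, z i ∈ V i := by
      intro i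
      refine (V i).sum_mem fun k _ => ?_
      split_ifs
      · exact (V i).smul_mem _ (hx _ _)
      · exact (V i).zero_mem
    have h1 := hC (S.biUnion fun k => s (p k)) z ε hzV hεle
    rw [Finset.sum_biUnion hpd, Finset.sum_biUnion hpd] at h1
    have e1 : ∑ k ∈ S, ∑ i ∈ s (p k), z i = ∑ k ∈ S, a k • y k := by
      refine Finset.sum_congr rfl fun k hk => ?_
      simp only [y]
      rw [Finset.smul_sum]
      exact Finset.sum_congr rfl fun i hi => hz k hk i hi
    have e2 : ∑ k ∈ S, ∑ i ∈ s (p k), ε i • z i = ∑ k ∈ S, |a k| • y k := by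
      refine Finset.sum_congr rfl fun k hk => ?_
      simp only [y]
      rw [Finset.smul_sum]
      refine Finset.sum_congr rfl fun i hi => ?_
      rw [hz k hk i hi, hε k hk i hi, smul_smul]
      congr 1
      rw [mul_comm]
      exact self_mul_sign (a k)
    rw [e1, e2] at h1
    exact h1
  have hf0 : 0 < ‖f‖ := by
    by_contra hcon
    have h0 : f = 0 := norm_eq_zero.1 (le_antisymm (not_lt.1 hcon) (norm_nonneg _))
    have := hyf 0
    rw [h0] at this
    have h2 : (0 : X →L[ℝ] ℝ) (y 0) = 0 := rfl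
    rw [h2] at this
    linarith
  have hCpos : 0 < C := by
    have h1 := hblock {0} (fun _ => 1)
    simp only [Finset.sum_singleton, abs_one, one_smul, hy1, mul_one] at h1
    linarith
  refine ⟨y, ⟨1, fun n => (hy1 n).le⟩, δ / (C * ‖f‖), by positivity, ?_⟩
  intro S a
  have h1 := hblock S a
  have h2 : f (∑ k ∈ S, |a k| • y k) = ∑ k ∈ S, |a k| * f (y k) := by
    rw [map_sum]
    exact Finset.sum_congr rfl fun k _ => by rw [map_smul, smul_eq_mul]
  have h3 : δ * ∑ k ∈ S, |a k| ≤ f (∑ k ∈ S, |a k| • y k) := by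
    rw [h2, Finset.mul_sum]
    refine Finset.sum_le_sum fun k _ => ?_
    rw [mul_comm]
    exact mul_le_mul_of_nonneg_left (hyf k) (abs_nonneg _)
  have h4 : f (∑ k ∈ S, |a k| • y k) ≤ ‖f‖ * ‖∑ k ∈ S, |a k| • y k‖ :=
    (le_abs_self _).trans (f.le_opNorm _)
  rw [div_mul_eq_mul_div, div_le_iff₀ (by positivity)]
  calc δ * ∑ k ∈ S, |a k| ≤ ‖f‖ * ‖∑ k ∈ S, |a k| • y k‖ := h3.trans h4
    _ ≤ ‖f‖ * (C * ‖∑ k ∈ S, a k • y k‖) := by gcongr
    _ = ‖∑ k ∈ S, a k • y k‖ * (C * ‖f‖) := by ring

/-- James: with an unconditional decomposition either the dual is separable or `ℓ¹` embeds -/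
theorem james (h : HasUncondFDD X) :
    TopologicalSpace.SeparableSpace (X →L[ℝ] ℝ) ∨ ContainsL1 X := by
  classical
  obtain ⟨V, hV, hd, C, hC⟩ := h
  by_cases hcl : ∀ f : X →L[ℝ] ℝ, f ∈ closure (⋃ n, (Ann V n : Set (X →L[ℝ] ℝ)))
  · left
    have h1 : TopologicalSpace.IsSeparable (⋃ n, (Ann V n : Set (X →L[ℝ] ℝ))) := by
      refine TopologicalSpace.IsSeparable.iUnion fun n => ?_
      have := finite_Ann hV hd n
      have h2 : TopologicalSpace.SeparableSpace (Ann V n) := by
        have : ProperSpace (Ann V n) := FiniteDimensional.proper ℝ (Ann V n)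
        infer_instance
      exact TopologicalSpace.IsSeparable.of_subtype _
    have h3 := h1.closure
    have h4 : closure (⋃ n, (Ann V n : Set (X →L[ℝ] ℝ))) = univ := eq_univ_of_forall hcl
    rw [h4] at h3
    exact TopologicalSpace.isSeparable_univ_iff.1 h3
  · right
    push Not at hcl
    obtain ⟨f, hf⟩ := hcl
    rw [Metric.mem_closure_iff] at hf
    push Not at hf
    obtain ⟨δ, hδ, hfδ⟩ := hf
    refine containsL1_of_blocks hC (f := f) (δ := δ / 2) (by positivity) fun n => ?_
    refine exists_block hδ n fun g hg => ?_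
    have := hfδ g (mem_iUnion.2 ⟨n, hg⟩)
    rw [dist_eq_norm] at this
    exact this

/-- for spaces with an unconditional decomposition the class is determined by `ℓ¹` -/
theorem classC_iff_of_uncond [CompleteSpace X] [TopologicalSpace.SeparableSpace X] [Nontrivial X]
    (h : HasUncondFDD X) : ClassC X ↔ ContainsL1 X := by
  constructor
  · intro hX
    rcases james h with h1 | h1
    · exact absurd hX (not_classC_of_separable_dual h1)
    · exact h1
  · intro h1
    exact classC_of_noPC (hasNoPC_of_containsL1 h1)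

end Helper67.SG
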